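import Pool.Agent.H410R3.DG.JetM

/-!
# Extending maps of a ball to a manifold, by the identity outside a chart
-/

set_option autoImplicit false
set_option linter.unusedSectionVars false
set_option linter.unusedVariables false

open Set Filter Topology
open scoped ContDiff Manifold

namespace Pool.Agent.R604.TC

open Pool.Agent.H410R3 Pool.Agent.H410R3.KS Pool.Agent.H410R3.DG

variable {E : Type} [NormedAddCommGroup E] [NormedSpace ℝ E] [FiniteDimensional ℝ E]
  {M : Type} [TopologicalSpace M] [ChartedSpace E M]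

variable (E M) in
/-- A chart with a rescaled ball in its target. -/
structure Ch where
  m : M
  s : ℝ
  hs : 0 < s
  hb : ∀ w : E, ‖w‖ < 4 → chartAt E m m + s • w ∈ (chartAt E m).target

theorem exists_Ch [Nonempty M] : Nonempty (Ch E M) := by
  obtain ⟨m⟩ := ‹Nonempty M›
  have h1 : (chartAt E m).target ∈ 𝓝 (chartAt E m m) :=
    (chartAt E m).open_target.mem_nhds ((chartAt E m).map_source (mem_chart_source E m))
  obtain ⟨δ, hδ, hδ'⟩ := Metric.mem_nhds_iff.1 h1
  refine ⟨⟨m, δ / 4, by positivity, fun w hw => hδ' ?_⟩⟩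
  rw [mem_ball_iff_norm, add_sub_cancel_left, norm_smul, Real.norm_of_nonneg (by positivity)]
  calc δ / 4 * ‖w‖ < δ / 4 * 4 := by gcongr
    _ = δ := by ring

/-- Maps supported in the ball of radius `3`. -/
structure Sp (φ : E → E) : Prop where
  far : ∀ w, 3 ≤ ‖w‖ → φ w = w
  near : ∀ w, ‖w‖ < 3 → ‖φ w‖ < 3

theorem Sp.comp {φ ψ : E → E} (h : Sp φ) (h' : Sp ψ) : Sp (φ ∘ ψ) := by
  refine ⟨fun w hw => ?_, fun w hw => h.near _ (h'.near _ hw)⟩
  show φ (ψ w) = w
  rw [h'.far w hw, h.far w hw]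

namespace Ch

variable (c : Ch E M)

/-- the inclusion of the ball -/
noncomputable def inc (w : E) : M := (chartAt E c.m).symm (chartAt E c.m c.m + c.s • w)

/-- the coordinates -/
noncomputable def out (p : M) : E := c.s⁻¹ • (chartAt E c.m p - chartAt E c.m c.m)

theorem inc_mem {w : E} (h : ‖w‖ < 4) : c.inc w ∈ (chartAt E c.m).source :=
  (chartAt E c.m).map_target (c.hb w h)

theorem out_inc {w : E} (h : ‖w‖ < 4) : c.out (c.inc w) = w := by
  rw [out, inc, (chartAt E c.m).right_inv (c.hb w h), add_sub_cancel_left, smul_smul,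
    inv_mul_cancel₀ c.hs.ne', one_smul]

theorem aff_out (p : M) : chartAt E c.m c.m + c.s • c.out p = chartAt E c.m p := by
  rw [out, smul_smul, mul_inv_cancel₀ c.hs.ne', one_smul, add_sub_cancel]

theorem inc_out {p : M} (h : p ∈ (chartAt E c.m).source) : c.inc (c.out p) = p := by
  rw [inc, aff_out, (chartAt E c.m).left_inv h]

open Classical in
/-- the extension -/
noncomputable def ext (φ : E → E) (p : M) : M :=
  if p ∈ (chartAt E c.m).source then c.inc (φ (c.out p)) else p

theorem ext_of_mem (φ : E → E) {p : M} (h : p ∈ (chartAt E c.m).source) :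
    c.ext φ p = c.inc (φ (c.out p)) := if_pos h

theorem ext_of_not_mem (φ : E → E) {p : M} (h : p ∉ (chartAt E c.m).source) :
    c.ext φ p = p := if_neg h

theorem ext_far {φ : E → E} (hφ : Sp φ) {p : M} (h : p ∈ (chartAt E c.m).source)
    (h' : 3 ≤ ‖c.out p‖) : c.ext φ p = p := by
  rw [ext_of_mem c φ h, hφ.far _ h', inc_out c h]

theorem ext_mem {φ : E → E} (hφ : Sp φ) {p : M} (h : p ∈ (chartAt E c.m).source) :
    c.ext φ p ∈ (chartAt E c.m).source := by
  by_cases h' : 3 ≤ ‖c.out p‖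
  · rw [c.ext_far hφ h h']; exact h
  · rw [ext_of_mem c φ h]
    exact c.inc_mem ((hφ.near _ (not_le.1 h')).trans (by norm_num))

theorem out_ext {φ : E → E} (hφ : Sp φ) {p : M} (h : p ∈ (chartAt E c.m).source) :
    c.out (c.ext φ p) = φ (c.out p) := by
  by_cases h' : 3 ≤ ‖c.out p‖
  · rw [c.ext_far hφ h h', hφ.far _ h']
  · rw [ext_of_mem c φ h]
    exact c.out_inc ((hφ.near _ (not_le.1 h')).trans (by norm_num))

theorem ext_comp {φ ψ : E → E} (hφ : Sp φ) (hψ : Sp ψ) (p : M) :
    c.ext φ (c.ext ψ p) = c.ext (φ ∘ ψ) p := by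
  by_cases h : p ∈ (chartAt E c.m).source
  · rw [ext_of_mem c φ (c.ext_mem hψ h), out_ext c hψ h, ext_of_mem c _ h]
    rfl
  · rw [ext_of_not_mem c _ h, ext_of_not_mem c _ h, ext_of_not_mem c _ h]

theorem ext_id (p : M) : c.ext id p = p := by
  by_cases h : p ∈ (chartAt E c.m).source
  · rw [ext_of_mem c _ h]
    exact c.inc_out h
  · rw [ext_of_not_mem c _ h]

theorem ext_inc {φ : E → E} {w : E} (h : ‖w‖ < 4) : c.ext φ (c.inc w) = c.inc (φ w) := by
  rw [ext_of_mem c φ (c.inc_mem h), c.out_inc h]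

theorem tgt {φ : E → E} (hφ : Sp φ) {p : M} (h : p ∈ (chartAt E c.m).source) :
    chartAt E c.m c.m + c.s • φ (c.out p) ∈ (chartAt E c.m).target := by
  by_cases h' : 3 ≤ ‖c.out p‖
  · rw [hφ.far _ h', aff_out]
    exact (chartAt E c.m).map_source h
  · exact c.hb _ ((hφ.near _ (not_le.1 h')).trans (by norm_num))

theorem continuousOn_inc : ContinuousOn c.inc {w | chartAt E c.m c.m + c.s • w ∈
    (chartAt E c.m).target} := by
  refine (chartAt E c.m).continuousOn_symm.comp (by fun_prop) ?_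
  intro w hw
  exact hw

theorem isOpen_dom_inc : IsOpen {w : E | chartAt E c.m c.m + c.s • w ∈ (chartAt E c.m).target} :=
  (chartAt E c.m).open_target.preimage (by fun_prop)

theorem continuousOn_out : ContinuousOn c.out (chartAt E c.m).source :=
  ((chartAt E c.m).continuousOn.sub continuousOn_const).const_smul _

/-- the support -/
def K : Set M := c.inc '' Metric.closedBall 0 3

theorem K_sub : c.K ⊆ (chartAt E c.m).source := by
  rintro _ ⟨w, hw, rfl⟩
  rw [mem_closedBall_zero_iff] at hw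
  exact c.inc_mem (by linarith)

theorem isCompact_K : IsCompact c.K := by
  refine (isCompact_closedBall 0 3).image_of_continuousOn (c.continuousOn_inc.mono ?_)
  intro w hw
  rw [mem_closedBall_zero_iff] at hw
  exact c.hb w (by linarith)

theorem ext_off {φ : E → E} (hφ : Sp φ) {p : M} (h : p ∉ c.K) : c.ext φ p = p := by
  by_cases h1 : p ∈ (chartAt E c.m).source
  · refine c.ext_far hφ h1 ?_
    by_contra h2
    push Not at h2
    exact h ⟨c.out p, by rw [mem_closedBall_zero_iff]; exact h2.le, c.inc_out h1⟩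
  · exact c.ext_of_not_mem φ h1

theorem isOpen_Kc [T2Space M] : IsOpen c.Kᶜ := c.isCompact_K.isClosed.isOpen_compl

theorem continuous_ext_family [T2Space M] {X : Type*} [TopologicalSpace X] {Φ : X → E → E}
    (hc : Continuous (fun q : X × E => Φ q.1 q.2)) (hΦ : ∀ x, Sp (Φ x)) :
    Continuous (fun q : X × M => c.ext (Φ q.1) q.2) := by
  rw [continuous_iff_continuousAt]
  rintro ⟨x, p⟩
  by_cases h : p ∈ (chartAt E c.m).source
  · have h1 : ∀ᶠ q : X × M in 𝓝 (x, p), q.2 ∈ (chartAt E c.m).source :=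
      continuousAt_snd.eventually ((chartAt E c.m).open_source.mem_nhds h)
    have h2 : ContinuousAt (fun q : X × M => c.inc (Φ q.1 (c.out q.2))) (x, p) := by
      have h3 : ContinuousAt (fun q : X × M => Φ q.1 (c.out q.2)) (x, p) := by
        refine ContinuousAt.comp (x := (x, p)) (f := fun q : X × M => (q.1, c.out q.2))
          (g := fun q : X × E => Φ q.1 q.2) hc.continuousAt ?_
        refine continuousAt_fst.prodMk ?_
        exact ContinuousAt.comp (x := (x, p)) (f := fun q : X × M => q.2) (g := c.out)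
          (c.continuousOn_out.continuousAt ((chartAt E c.m).open_source.mem_nhds h))
          continuousAt_snd
      refine ContinuousAt.comp (g := c.inc) ?_ h3
      exact c.continuousOn_inc.continuousAt (c.isOpen_dom_inc.mem_nhds (c.tgt (hΦ x) h))
    refine h2.congr ?_
    filter_upwards [h1] with q hq
    exact (c.ext_of_mem _ hq).symm
  · have h1 : ∀ᶠ q : X × M in 𝓝 (x, p), q.2 ∈ c.Kᶜ :=
      continuousAt_snd.eventually (c.isOpen_Kc.mem_nhds fun hK => h (c.K_sub hK))
    have h2 : ContinuousAt (fun q : X × M => q.2) (x, p) := continuousAt_snd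
    refine h2.congr ?_
    filter_upwards [h1] with q hq
    exact (c.ext_off (hΦ q.1) hq).symm

theorem continuous_ext [T2Space M] {φ : E → E} (hc : Continuous φ) (hφ : Sp φ) :
    Continuous (c.ext φ) :=
  (c.continuous_ext_family (X := Unit) (Φ := fun _ => φ) (hc.comp continuous_snd)
    (fun _ => hφ)).comp (Continuous.prodMk_right ())

variable [IsManifold 𝓘(ℝ, E) ∞ M]

theorem contMDiff_ext [T2Space M] {φ : E → E} (hs : ContDiff ℝ ∞ φ) (hφ : Sp φ) :
    ContMDiff 𝓘(ℝ, E) 𝓘(ℝ, E) ∞ (c.ext φ) := by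
  intro p
  by_cases h : p ∈ (chartAt E c.m).source
  · have h1 : ∀ᶠ q in 𝓝 p, q ∈ (chartAt E c.m).source := (chartAt E c.m).open_source.mem_nhds h
    have h2 : ContMDiffAt 𝓘(ℝ, E) 𝓘(ℝ, E) ∞ (chartAt E c.m) p :=
      (contMDiffOn_chart (n := ∞) (I := 𝓘(ℝ, E)) (x := c.m)).contMDiffAt
        ((chartAt E c.m).open_source.mem_nhds h)
    have h3 : ContMDiffAt 𝓘(ℝ, E) 𝓘(ℝ, E) ∞ (fun q => chartAt E c.m c.m + c.s • φ (c.out q)) p := by
      have h4 : ContDiff ℝ ∞ (fun w : E => chartAt E c.m c.m + c.s • φ (c.s⁻¹ •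
        (w - chartAt E c.m c.m))) := by
        have h5 : ContDiff ℝ ∞ (fun w : E => c.s⁻¹ • (w - chartAt E c.m c.m)) :=
          (contDiff_id.sub contDiff_const).const_smul _
        exact contDiff_const.add ((hs.comp h5).const_smul _)
      exact h4.contMDiff.contMDiffAt.comp p h2
    have h6 : ContMDiffAt 𝓘(ℝ, E) 𝓘(ℝ, E) ∞ (chartAt E c.m).symm
        (chartAt E c.m c.m + c.s • φ (c.out p)) :=
      (contMDiffOn_chart_symm (n := ∞) (I := 𝓘(ℝ, E)) (x := c.m)).contMDiffAt
        ((chartAt E c.m).open_target.mem_nhds (c.tgt hφ h))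
    refine (h6.comp p h3).congr_of_eventuallyEq ?_
    filter_upwards [h1] with q hq
    rw [c.ext_of_mem _ hq]
    rfl
  · have h1 : ∀ᶠ q in 𝓝 p, q ∈ c.Kᶜ := c.isOpen_Kc.mem_nhds fun hK => h (c.K_sub hK)
    refine contMDiffAt_id.congr_of_eventuallyEq ?_
    filter_upwards [h1] with q hq
    exact c.ext_off hφ hq

theorem jet_ext [T2Space M] {X : Type*} [TopologicalSpace X] {Φ : X → E → E}
    (hΦ : ∀ x, Sp (Φ x)) (hj : ∀ p, JetAt ⊤ Φ p) :
    JetM E ⊤ (fun x => c.ext (M := M) (Φ x)) := by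
  intro x y θ w hw hθ
  have hid : ∀ a b : M, ContDiffOn ℝ ((⊤ : ℕ∞) : WithTop ℕ∞) (localRep 𝓘(ℝ, E) a b (id : M → M))
      {w | w ∈ (chartAt E a).target ∧ id ((chartAt E a).symm w) ∈ (chartAt E b).source} :=
    fun a b => contDiffOn_localRep a b contMDiff_id
  have hop : ∀ a b : M, IsOpen {w | w ∈ (chartAt E a).target ∧
      id ((chartAt E a).symm w) ∈ (chartAt E b).source} := fun a b => isOpen_dom a b continuous_id
  by_cases h : (chartAt E x).symm w ∈ (chartAt E c.m).source
  · -- the inner map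
    let γ : E → E := fun w => c.out ((chartAt E x).symm w)
    let β : E → E := fun v => (chartAt E y) (c.inc v)
    have hγ : JetAt ⊤ (fun _ : X => γ) (θ, w) := by
      refine jetAt_const (hop x c.m) ?_ ⟨hw, h⟩
      have h1 : ContDiff ℝ ∞ (fun v : E => c.s⁻¹ • (v - chartAt E c.m c.m)) :=
        (contDiff_id.sub contDiff_const).const_smul _
      refine (h1.comp_contDiffOn (hid x c.m)).congr ?_
      intro v _
      show c.out ((chartAt E x).symm v) = _
      rw [Function.comp_apply, localRep_eq]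
      rfl
    have hy : c.inc (Φ θ (γ w)) ∈ (chartAt E y).source := by
      have h2 : c.ext (Φ θ) ((chartAt E x).symm w) ∈ (chartAt E y).source := hθ
      rw [c.ext_of_mem _ h] at h2
      exact h2
    have hdom : IsOpen {v : E | chartAt E c.m c.m + c.s • v ∈ (chartAt E c.m).target ∧
        c.inc v ∈ (chartAt E y).source} := by
      have := (hop c.m y).preimage (show Continuous fun v : E => chartAt E c.m c.m + c.s • v by
        fun_prop)
      exact this
    have hβ : JetAt ⊤ (fun _ : X => β) (θ, Φ θ (γ w)) := by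
      refine jetAt_const hdom ?_ ⟨c.tgt (hΦ θ) h, hy⟩
      have h1 : ContDiff ℝ ∞ (fun v : E => chartAt E c.m c.m + c.s • v) :=
        contDiff_const.add (contDiff_id.const_smul _)
      have h2 : ContDiffOn ℝ ((⊤ : ℕ∞) : WithTop ℕ∞) (fun v : E => localRep 𝓘(ℝ, E) c.m y
          (id : M → M) (chartAt E c.m c.m + c.s • v))
          {v : E | chartAt E c.m c.m + c.s • v ∈ (chartAt E c.m).target ∧
            c.inc v ∈ (chartAt E y).source} := by
        refine (hid c.m y).comp h1.contDiffOn ?_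
        intro v hv
        exact hv
      refine h2.congr ?_
      intro v _
      rw [localRep_eq]
      rfl
    have hΦγ : JetAt ⊤ (fun θ => Φ θ ∘ γ) (θ, w) := (hj (θ, γ w)).comp hγ
    have hall : JetAt ⊤ (fun θ => β ∘ (Φ θ ∘ γ)) (θ, w) := hβ.comp hΦγ
    refine hall.congr ?_
    have h1 : ∀ᶠ q : X × E in 𝓝 (θ, w), q.2 ∈ {w | w ∈ (chartAt E x).target ∧
      id ((chartAt E x).symm w) ∈ (chartAt E c.m).source} :=
      continuousAt_snd.eventually ((hop x c.m).mem_nhds ⟨hw, h⟩)
    filter_upwards [h1] with q hq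
    filter_upwards [(hop x c.m).mem_nhds hq] with v hv
    have hv2 : (chartAt E x).symm v ∈ (chartAt E c.m).source := hv.2
    rw [localRep_eq, c.ext_of_mem _ hv2]
    rfl
  · -- outside the support
    have hnK : (chartAt E x).symm w ∈ c.Kᶜ := fun hK => h (c.K_sub hK)
    have hev : ∀ v : M, v ∈ c.Kᶜ → c.ext (Φ θ) v = v := fun v hv => c.ext_off (hΦ θ) hv
    have hy : (chartAt E x).symm w ∈ (chartAt E y).source := by
      have h2 : c.ext (Φ θ) ((chartAt E x).symm w) ∈ (chartAt E y).source := hθ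
      rw [hev _ hnK] at h2
      exact h2
    have h0 : JetAt ⊤ (fun _ : X => localRep 𝓘(ℝ, E) x y (id : M → M)) (θ, w) :=
      jetAt_const (hop x y) (hid x y) ⟨hw, hy⟩
    refine h0.congr ?_
    have ho : IsOpen {v | v ∈ (chartAt E x).target ∧ (chartAt E x).symm v ∈ c.Kᶜ} :=
      (chartAt E x).continuousOn_symm.isOpen_inter_preimage (chartAt E x).open_target c.isOpen_Kc
    have h1 : ∀ᶠ q : X × E in 𝓝 (θ, w), q.2 ∈ {v | v ∈ (chartAt E x).target ∧
      (chartAt E x).symm v ∈ c.Kᶜ} :=
      continuousAt_snd.eventually (ho.mem_nhds ⟨hw, hnK⟩)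
    filter_upwards [h1] with q hq
    filter_upwards [ho.mem_nhds hq] with v hv
    rw [localRep_eq, localRep_eq, c.ext_off (hΦ q.1) hv.2]
    rfl

end Ch

/-- A criterion for the continuity of a map into the space of diffeomorphisms. -/
theorem continuous_of_jetM [IsManifold 𝓘(ℝ, E) ∞ M] {X : Type*} [TopologicalSpace X] {r : ℕ∞}
    (F : X → DiffR 𝓘(ℝ, E) M r)
    (hev : Continuous (fun q : X × M => (F q.1).map q.2))
    (hjet : JetM E r (fun x => (F x).map)) :
    @Continuous X (DiffR 𝓘(ℝ, E) M r) _ (crTopology 𝓘(ℝ, E) M r) F := by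
  refine continuous_generateFrom_iff.2 ?_
  rintro S ⟨f₀, x, y, K, k, ε, hK, hKx, hKy, hk, hε, rfl⟩
  rw [isOpen_iff_mem_nhds]
  intro g hg
  have key : ∀ z ∈ K, ∀ᶠ q : X × M in 𝓝 (g, z),
      (F q.1).map q.2 ∈ (chartAt E y).source ∧ ∀ j ∈ Finset.range (k+1),
        ‖iteratedFDeriv ℝ j (localRep 𝓘(ℝ, E) x y (F q.1).map) (extChartAt 𝓘(ℝ, E) x q.2) -
          iteratedFDeriv ℝ j (localRep 𝓘(ℝ, E) x y f₀.map) (extChartAt 𝓘(ℝ, E) x q.2)‖ < ε := by
    intro z hz
    have hzx := hKx hz
    refine (hev.continuousAt.eventually ((chartAt E y).open_source.mem_nhds (hg.1 hz))).and ?_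
    refine (Filter.eventually_all_finset _).2 fun j hj => ?_
    have hjk : j ≤ k := by simpa [Nat.lt_succ_iff] using hj
    have hjr : (j : ℕ∞) ≤ r := le_trans (by exact_mod_cast hjk) hk
    have hw : (chartAt E x) z ∈ (chartAt E x).target := (chartAt E x).map_source hzx
    have hcz : ContinuousAt (fun q : X × M => (q.1, (chartAt E x) q.2)) (g, z) :=
      continuousAt_fst.prodMk (((chartAt E x).continuousAt hzx).comp continuousAt_snd)
    have hcz0 : ContinuousAt (fun q : X × M => (chartAt E x) q.2) (g, z) :=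
      ((chartAt E x).continuousAt hzx).comp continuousAt_snd
    have h1 := (hjet x y g _ hw (by
      rw [(chartAt E x).left_inv hzx]; exact hg.1 hz)).2 j hjr
    have h2 : ContinuousAt (fun w : E => iteratedFDeriv ℝ j (localRep 𝓘(ℝ, E) x y f₀.map) w)
        ((chartAt E x) z) := by
      have hjr' : ((j : ℕ) : WithTop ℕ∞) ≤ (r : WithTop ℕ∞) := by exact_mod_cast hjr
      refine (((contDiffOn_localRep x y (DiffR.contMDiff' f₀)).contDiffAt
        ((isOpen_dom x y (Diffeomorph.continuous f₀)).mem_nhds ⟨hw, ?_⟩)).of_le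
          hjr').continuousAt_iteratedFDeriv le_rfl
      rw [(chartAt E x).left_inv hzx]
      exact hKy hz
    have h3 := ContinuousAt.comp (f := fun q : X × M => (q.1, (chartAt E x) q.2))
      (g := fun q : X × E =>
        iteratedFDeriv ℝ j (localRep 𝓘(ℝ, E) x y (F q.1).map) q.2) h1 hcz
    have h4 := ContinuousAt.comp (f := fun q : X × M => (chartAt E x) q.2)
      (g := fun w : E =>
        iteratedFDeriv ℝ j (localRep 𝓘(ℝ, E) x y f₀.map) w) (x := (g, z)) h2 hcz0
    have h5 := (h3.sub h4).norm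
    have h6 := h5.eventually (gt_mem_nhds (show _ < ε from hg.2 z hz j hjk))
    filter_upwards [h6] with q hq
    exact hq
  have := hK.eventually_forall_of_forall_eventually (x₀ := g) (P := fun g' z =>
      (F g').map z ∈ (chartAt E y).source ∧ ∀ j ∈ Finset.range (k+1),
        ‖iteratedFDeriv ℝ j (localRep 𝓘(ℝ, E) x y (F g').map) (extChartAt 𝓘(ℝ, E) x z) -
          iteratedFDeriv ℝ j (localRep 𝓘(ℝ, E) x y f₀.map) (extChartAt 𝓘(ℝ, E) x z)‖ < ε) key
  filter_upwards [this] with g' hg'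
  refine ⟨fun z hz => (hg' z hz).1, fun z hz j hj => (hg' z hz).2 j ?_⟩
  simpa [Nat.lt_succ_iff] using hj

end Pool.Agent.R604.TC
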