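import Pool.Agent.R604.TC.Wob
import Pool.Agent.R604.TC.Ext

/-!
# Conjugacy of two members of the family with nearby parameters; periods
-/

set_option autoImplicit false
set_option linter.unusedSectionVars false
set_option linter.unusedVariables false

open Set Filter Topology
open scoped ContDiff Manifold

namespace Pool.Agent.R604.TC

open Pool.Agent.H410R3 Pool.Agent.H410R3.KS Pool.Agent.H410R3.DG

variable {E : Type} [NormedAddCommGroup E] [InnerProductSpace ℝ E] [FiniteDimensional ℝ E]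
  (L : Pl E)

/-! ### twists -/

/-- bump on the shell `i` -/
noncomputable def bp (i : ℕ) (ρ : ℝ) : ℝ := max 0 (min 1 (2 - 2 * |ρ - rho i| / wid i))

theorem bp_one {i : ℕ} {ρ : ℝ} (h : |ρ - rho i| ≤ rad i) : bp i ρ = 1 := by
  have h1 : 2 * |ρ - rho i| / wid i ≤ 1 := by
    rw [div_le_one (wid_pos i)]
    unfold rad at h
    linarith
  rw [bp, min_eq_left (by linarith), max_eq_right zero_le_one]

theorem bp_zero {i : ℕ} {ρ : ℝ} (h : wid i ≤ |ρ - rho i|) : bp i ρ = 0 := by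
  have h1 : 2 ≤ 2 * |ρ - rho i| / wid i := by
    rw [le_div_iff₀ (wid_pos i)]
    linarith
  rw [bp, max_eq_left]
  exact (min_le_right _ _).trans (by linarith)

theorem bp_abs (i : ℕ) (ρ : ℝ) : |bp i ρ| ≤ 1 := by
  rw [bp, abs_of_nonneg (le_max_left _ _)]
  exact max_le zero_le_one (min_le_left _ _)

theorem bp_cont (i : ℕ) : Continuous (bp i) := by
  unfold bp
  fun_prop

/-- the angle of the twist -/
noncomputable def phi (δ : ℕ → ℝ) (ρ : ℝ) : ℝ := ∑' i, δ i * bp i ρ

theorem phi_cont {δ : ℕ → ℝ} (h : Summable fun i => |δ i|) : Continuous (phi δ) := by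
  refine continuous_tsum (fun i => continuous_const.mul (bp_cont i)) h ?_
  intro i ρ
  rw [norm_mul, Real.norm_eq_abs, Real.norm_eq_abs]
  exact mul_le_of_le_one_right (abs_nonneg _) (bp_abs i ρ)

theorem phi_in {δ : ℕ → ℝ} {i : ℕ} {ρ : ℝ} (h : |ρ - rho i| ≤ rad i) : phi δ ρ = δ i := by
  rw [phi, tsum_eq_single i, bp_one h, mul_one]
  intro j hj
  rw [bp_zero, mul_zero]
  have h1 := shell hj
  have h3 : |rho j - rho i| ≤ |ρ - rho i| + |ρ - rho j| := by
    rw [show rho j - rho i = (ρ - rho i) - (ρ - rho j) by ring]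
    exact abs_sub _ _
  have h2 : rad i ≤ wid i := by unfold rad; linarith [wid_pos i]
  linarith

theorem phi_far {δ : ℕ → ℝ} {ρ : ℝ} (h : 3 ≤ ρ) : phi δ ρ = 0 := by
  have : ∀ i, δ i * bp i ρ = 0 := by
    intro i
    rw [bp_zero, mul_zero]
    have h1 := rho_le i
    have h2 := wid_le i
    rw [abs_of_nonneg (by linarith)]
    linarith
  simp [phi, this]

theorem phi_neg (δ : ℕ → ℝ) (ρ : ℝ) : phi (fun i => -δ i) ρ = -phi δ ρ := by
  rw [phi, phi, ← tsum_neg]
  refine tsum_congr fun i => ?_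
  ring

/-- the twist -/
noncomputable def tw (δ : ℕ → ℝ) (w : E) : E := L.rot (phi δ ‖w‖) w

theorem norm_tw (δ : ℕ → ℝ) (w : E) : ‖tw L δ w‖ = ‖w‖ := L.norm_rot _ _

theorem tw_Sp (δ : ℕ → ℝ) : Sp (tw L δ) := by
  refine ⟨fun w hw => ?_, fun w hw => ?_⟩
  · rw [tw, phi_far hw, L.rot_zero]
  · rw [norm_tw]; exact hw

theorem tw_cont {δ : ℕ → ℝ} (h : Summable fun i => |δ i|) : Continuous (tw L δ) :=
  L.continuous_rot.comp (((phi_cont h).comp continuous_norm).prodMk continuous_id)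

theorem tw_inv (δ : ℕ → ℝ) (w : E) : tw L (fun i => -δ i) (tw L δ w) = w := by
  rw [tw, norm_tw, phi_neg, tw, L.rot_neg_rot]

theorem T_Sp (σ θ : ℕ → ℝ) : Sp (T L σ θ) := ⟨fun _ hw => T_far L hw, fun _ hw => T_near L hw⟩

theorem tw_conj {σ θ θ' : ℕ → ℝ} (w : E) :
    tw L (fun i => θ' i - θ i) (T L σ θ w) = T L σ θ' (tw L (fun i => θ' i - θ i) w) := by
  have key : ∀ i, |‖w‖ - rho i| ≤ rad i → ‖tw L (fun i => θ' i - θ i) w - cen L i (θ' i)‖ =
      ‖w - cen L i (θ i)‖ := by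
    intro i h2
    rw [tw, phi_in h2]
    have h4 : cen L i (θ' i) = L.rot (θ' i - θ i) (cen L i (θ i)) := by
      rw [rot_cen, sub_add_cancel]
    rw [h4, ← L.rot_sub, L.norm_rot]
  by_cases h : ∀ i, rad i ≤ ‖w - cen L i (θ i)‖
  · rw [T_out L h]
    refine (T_out L fun i => ?_).symm
    by_contra h1
    push Not at h1
    have h2 := in_shell L h1.le
    rw [norm_tw] at h2
    rw [key i h2] at h1
    exact absurd h1 (not_lt.2 (h i))
  · push Not at h
    obtain ⟨i, hi⟩ := h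
    have h1 := in_shell L hi.le
    have h2 := T_ball L (σ := σ) hi.le
    have h3 : |‖T L σ θ w‖ - rho i| ≤ rad i := in_shell L (h2.le.trans hi.le)
    have h4 := key i h1
    rw [T_in L (h4.le.trans hi.le), h4, tw, phi_in h3, tw, phi_in h1, T_in L hi.le, L.rot_vadd,
      rot_cen, sub_add_cancel, L.rot_comm, L.rot_sub, rot_cen, sub_add_cancel]

theorem conj_of_summable {M : Type} [TopologicalSpace M] [ChartedSpace E M] [T2Space M]
    (c : Ch E M) {σ θ θ' : ℕ → ℝ} (h : Summable fun i => |θ' i - θ i|) :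
    TopConj (c.ext (T L σ θ)) (c.ext (T L σ θ') : M → M) := by
  set δ : ℕ → ℝ := fun i => θ' i - θ i with hδ
  have h' : Summable fun i => |-δ i| := by simpa [abs_neg] using h
  have hc1 : Continuous (c.ext (tw L δ) : M → M) := c.continuous_ext (tw_cont L h) (tw_Sp L _)
  have hc2 : Continuous (c.ext (tw L fun i => -δ i) : M → M) :=
    c.continuous_ext (tw_cont L h') (tw_Sp L _)
  have e1 : ∀ p : M, c.ext (tw L fun i => -δ i) (c.ext (tw L δ) p) = p := by
    intro p
    rw [c.ext_comp (tw_Sp L _) (tw_Sp L _)]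
    have : (tw L fun i => -δ i) ∘ (tw L δ) = id := by
      funext w
      exact tw_inv L δ w
    rw [this, c.ext_id]
  have e2 : ∀ p : M, c.ext (tw L δ) (c.ext (tw L fun i => -δ i) p) = p := by
    intro p
    rw [c.ext_comp (tw_Sp L _) (tw_Sp L _)]
    have : (tw L δ) ∘ (tw L fun i => -δ i) = id := by
      funext w
      have := tw_inv L (fun i => -δ i) w
      simpa using this
    rw [this, c.ext_id]
  refine ⟨⟨⟨_, _, e1, e2⟩, hc1, hc2⟩, fun p => ?_⟩
  show c.ext (tw L δ) (c.ext (T L σ θ) p) = c.ext (T L σ θ') (c.ext (tw L δ) p)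
  rw [c.ext_comp (tw_Sp L _) (T_Sp L _ _), c.ext_comp (T_Sp L _ _) (tw_Sp L _)]
  congr 1
  funext w
  exact tw_conj L w

/-! ### periods -/

/-- exact period `N` -/
def Per {X : Type*} (f : X → X) (N : ℕ) (p : X) : Prop :=
  f^[N] p = p ∧ ∀ k, 0 < k → k < N → f^[k] p ≠ p

theorem T_iter {σ θ : ℕ → ℝ} {w : E} {i : ℕ} (h : ‖w - cen L i (θ i)‖ ≤ rad i) (k : ℕ) :
    (T L σ θ)^[k] w = cen L i (θ i) +
      L.rot (k * (2 * Real.pi * σ i * chi (‖w - cen L i (θ i)‖ ^ 2 / rad i ^ 2)))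
        (w - cen L i (θ i)) := by
  induction k with
  | zero => simp [L.rot_zero]
  | succ k ih =>
    rw [Function.iterate_succ_apply', ih]
    have h1 : ‖cen L i (θ i) + L.rot (k * (2 * Real.pi * σ i *
        chi (‖w - cen L i (θ i)‖ ^ 2 / rad i ^ 2))) (w - cen L i (θ i)) - cen L i (θ i)‖ =
        ‖w - cen L i (θ i)‖ := by
      rw [add_sub_cancel_left, L.norm_rot]
    rw [T_in L (h1.le.trans h), h1, add_sub_cancel_left, ← L.rot_add]
    congr 2
    push_cast
    ring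

theorem T_iter_fix {σ θ : ℕ → ℝ} {w : E} {i : ℕ} (h : ‖w - cen L i (θ i)‖ ≤ rad i) (k : ℕ) :
    (T L σ θ)^[k] w = w ↔ L.q (w - cen L i (θ i)) = 0 ∨
      Real.cos (k * (2 * Real.pi * σ i * chi (‖w - cen L i (θ i)‖ ^ 2 / rad i ^ 2))) = 1 := by
  rw [T_iter L h, ← L.rot_eq_self_iff]
  constructor
  · intro h1
    rw [← sub_eq_zero] at h1 ⊢
    rw [← h1]
    abel
  · intro h1
    rw [h1]
    abel

theorem int_of_cos {N : ℕ → ℕ} {i : ℕ} (hN : 0 < N i) {k : ℕ} {t : ℝ}
    (h : Real.cos (k * (2 * Real.pi * (1 / (N i : ℝ)) * t)) = 1) : ∃ m : ℤ, (k : ℝ) * t = m * N i := by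
  rw [Real.cos_eq_one_iff] at h
  obtain ⟨m, hm⟩ := h
  refine ⟨m, ?_⟩
  have h0 : (N i : ℝ) ≠ 0 := by exact_mod_cast hN.ne'
  field_simp at hm
  linarith

/-- Only the ball `i` contains points which are interior points of the set of points of exact
period `N i`. -/
theorem per_in {N : ℕ → ℕ} (hN : StrictMono N) (hN2 : ∀ i, 2 ≤ N i) {θ : ℕ → ℝ} {i : ℕ} {w : E}
    {U : Set E} (hU : IsOpen U) (hw : w ∈ U)
    (hper : ∀ u ∈ U, Per (T L (fun i => 1 / (N i : ℝ)) θ) (N i) u) :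
    ‖w - cen L i (θ i)‖ < rad i := by
  have hTw : ∀ u ∈ U, T L (fun i => 1 / (N i : ℝ)) θ u ≠ u := by
    intro u hu
    exact (hper u hu).2 1 one_pos (by have := hN2 i; omega)
  have hex : ∃ j, ‖w - cen L j (θ j)‖ < rad j := by
    by_contra hne
    push Not at hne
    exact hTw w hw (T_out L hne)
  obtain ⟨j, hj⟩ := hex
  suffices hij : j = i by rw [← hij]; exact hj
  have hNj : 0 < N j := by have := hN2 j; omega
  have hNi : 0 < N i := by have := hN2 i; omega
  set c : E := cen L j (θ j) with hc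
  set v : E := w - c with hv
  have hq : L.q v ≠ 0 := by
    intro h0
    apply hTw w hw
    have := (T_iter_fix L (σ := fun i => 1 / (N i : ℝ)) hj.le 1).2 (Or.inl h0)
    simpa using this
  have hv0 : v ≠ 0 := by
    intro h0
    apply hq
    rw [h0]
    simp [Pl.q]
  -- the integrality
  have hint : ∀ u ∈ U, ‖u - c‖ < rad j → L.q (u - c) ≠ 0 →
      ∃ m : ℤ, (N i : ℝ) * chi (‖u - c‖ ^ 2 / rad j ^ 2) = m * N j := by
    intro u hu hu1 hu2
    have h1 := (T_iter_fix L (σ := fun i => 1 / (N i : ℝ)) (θ := θ) (w := u) (i := j)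
      hu1.le (N i)).1 (hper u hu).1
    rcases h1 with h1 | h1
    · exact absurd h1 hu2
    · exact int_of_cos hNj h1
  have hr := rad_pos j
  set t : ℝ := ‖v‖ ^ 2 / rad j ^ 2 with ht
  have ht1 : t < 1 := by
    rw [ht, div_lt_one (by positivity)]
    exact pow_lt_pow_left₀ hj (norm_nonneg _) two_ne_zero
  have ht0 : 0 < t := by
    have : 0 < ‖v‖ := norm_pos_iff.2 hv0
    positivity
  by_cases hhalf : 1 / 2 ≤ t
  · -- the transition region is impossible
    exfalso
    obtain ⟨m, hm⟩ := hint w hw hj hq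
    -- approach along `c + (1 + ε) v`
    have hlim : Tendsto (fun ε : ℝ => c + (1 + ε) • v) (𝓝[>] 0) (𝓝 w) := by
      have h1 : Tendsto (fun ε : ℝ => c + (1 + ε) • v) (𝓝 0) (𝓝 (c + (1 + (0 : ℝ)) • v)) := by
        apply Continuous.tendsto
        fun_prop
      have h2 : c + (1 + (0 : ℝ)) • v = w := by rw [hv]; simp
      rw [h2] at h1
      exact h1.mono_left nhdsWithin_le_nhds
    have htl : Tendsto (fun ε : ℝ => (1 + ε) ^ 2 * t) (𝓝[>] 0) (𝓝 t) := by
      have h1 : Tendsto (fun ε : ℝ => (1 + ε) ^ 2 * t) (𝓝 0) (𝓝 ((1 + 0) ^ 2 * t)) := by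
        apply Continuous.tendsto
        fun_prop
      have h2 : (1 + (0 : ℝ)) ^ 2 * t = t := by ring
      rw [h2] at h1
      exact h1.mono_left nhdsWithin_le_nhds
    have hchi : Tendsto (fun ε : ℝ => (N i : ℝ) * chi ((1 + ε) ^ 2 * t) / N j) (𝓝[>] 0)
        (𝓝 ((N i : ℝ) * chi t / N j)) :=
      (((chi_contDiff.continuous.tendsto t).comp htl).const_mul _).div_const _
    have h1 : ∀ᶠ ε : ℝ in 𝓝[>] 0, c + (1 + ε) • v ∈ U := hlim.eventually (hU.mem_nhds hw)
    have h2 : ∀ᶠ ε : ℝ in 𝓝[>] 0, (1 + ε) ^ 2 * t < 1 := htl.eventually (gt_mem_nhds ht1)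
    have h3 : ∀ᶠ ε : ℝ in 𝓝[>] 0, (N i : ℝ) * chi t / N j - 1 <
        (N i : ℝ) * chi ((1 + ε) ^ 2 * t) / N j :=
      hchi.eventually (lt_mem_nhds (by linarith))
    have h4 : ∀ᶠ ε : ℝ in 𝓝[>] 0, 0 < ε := eventually_mem_nhdsWithin
    obtain ⟨ε, e1, e2, e3, e4⟩ := (h1.and (h2.and (h3.and h4))).exists
    have h5 : c + (1 + ε) • v - c = (1 + ε) • v := by abel
    have h6 : ‖c + (1 + ε) • v - c‖ ^ 2 / rad j ^ 2 = (1 + ε) ^ 2 * t := by
      rw [h5, norm_smul, Real.norm_of_nonneg (by linarith), ht]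
      ring
    have h7 : ‖c + (1 + ε) • v - c‖ < rad j := by
      have h8 : ‖c + (1 + ε) • v - c‖ ^ 2 / rad j ^ 2 < 1 := by rw [h6]; exact e2
      rw [div_lt_one (by positivity)] at h8
      exact lt_of_pow_lt_pow_left₀ 2 hr.le h8
    have h9 : L.q (c + (1 + ε) • v - c) ≠ 0 := by
      rw [h5]
      have : L.q ((1 + ε) • v) = (1 + ε) ^ 2 * L.q v := by
        unfold Pl.q
        rw [inner_smul_right, inner_smul_right]
        ring
      rw [this]
      exact mul_ne_zero (by positivity) hq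
    obtain ⟨m', hm'⟩ := hint _ e1 h7 h9
    rw [h6] at hm'
    have hlt : chi ((1 + ε) ^ 2 * t) < chi t :=
      chi_lt hhalf (by nlinarith [mul_pos e4 ht0, mul_pos (mul_pos e4 e4) ht0]) e2.le
    have hNj' : (0 : ℝ) < N j := by exact_mod_cast hNj
    have hNi' : (0 : ℝ) < N i := by exact_mod_cast hNi
    have h10 : (m' : ℝ) < m := by
      have : (m' : ℝ) * N j < m * N j := by
        rw [← hm, ← hm']
        exact mul_lt_mul_of_pos_left hlt hNi'
      exact lt_of_mul_lt_mul_right this hNj'.le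
    have h11 : (m : ℝ) - 1 < m' := by
      have h12 : (N i : ℝ) * chi t / N j = m := by rw [hm]; field_simp
      have h13 : (N i : ℝ) * chi ((1 + ε) ^ 2 * t) / N j = m' := by rw [hm']; field_simp
      rw [h12, h13] at e3
      exact e3
    have h14 : m' < m := by exact_mod_cast h10
    have h15 : m - 1 < m' := by exact_mod_cast h11
    omega
  · push Not at hhalf
    have hchi1 : chi t = 1 := chi_one hhalf.le
    have hfix : ∀ k : ℕ, (T L (fun i => 1 / (N i : ℝ)) θ)^[k] w = w ↔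
        Real.cos (k * (2 * Real.pi * (1 / (N j : ℝ)) * 1)) = 1 := by
      intro k
      rw [T_iter_fix L (σ := fun i => 1 / (N i : ℝ)) (θ := θ) hj.le k]
      have hchi2 : chi (‖w - cen L j (θ j)‖ ^ 2 / rad j ^ 2) = 1 := hchi1
      rw [hchi2]
      constructor
      · rintro (h | h)
        · exact absurd h hq
        · exact h
      · intro h
        exact Or.inr h
    have hNj' : (N j : ℝ) ≠ 0 := by exact_mod_cast hNj.ne'
    have h1 : N i ≤ N j := by
      by_contra hlt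
      push Not at hlt
      apply (hper w hw).2 (N j) hNj hlt
      rw [hfix]
      have : (N j : ℝ) * (2 * Real.pi * (1 / (N j : ℝ)) * 1) = 2 * Real.pi := by
        field_simp
      rw [this, Real.cos_two_pi]
    have h2 : N j ≤ N i := by
      have h3 := (hfix (N i)).1 (hper w hw).1
      obtain ⟨m, hm⟩ := int_of_cos hNj h3
      have h4 : (N i : ℤ) = m * N j := by
        have : ((N i : ℤ) : ℝ) = ((m * N j : ℤ) : ℝ) := by push_cast; linarith
        exact_mod_cast this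
      have h5 : (N j : ℤ) ∣ N i := ⟨m, by rw [h4]; ring⟩
      exact Nat.le_of_dvd hNi (by exact_mod_cast h5)
    exact hN.injective (le_antisymm h2 h1)

theorem per_ex {N : ℕ → ℕ} (hN2 : ∀ i, 2 ≤ N i) (θ : ℕ → ℝ) (i : ℕ) :
    ∃ U : Set E, IsOpen U ∧ U.Nonempty ∧ (∀ u ∈ U, ‖u‖ < 3) ∧
      ∀ u ∈ U, Per (T L (fun i => 1 / (N i : ℝ)) θ) (N i) u := by
  have hr := rad_pos i
  set c : E := cen L i (θ i) with hc
  refine ⟨{u | ‖u - c‖ ^ 2 < rad i ^ 2 / 2} ∩ {u | L.q (u - c) ≠ 0}, ?_, ?_, ?_, ?_⟩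
  · refine IsOpen.inter (isOpen_lt (by fun_prop) continuous_const) ?_
    have hqc : Continuous (fun u : E => L.q (u - c)) := by
      unfold Pl.q
      fun_prop
    exact isOpen_ne.preimage hqc
  · refine ⟨c + (rad i / 2) • L.a, ?_, ?_⟩
    · show ‖c + (rad i / 2) • L.a - c‖ ^ 2 < rad i ^ 2 / 2
      rw [add_sub_cancel_left, norm_smul, L.na, mul_one, Real.norm_of_nonneg (by positivity)]
      nlinarith
    · show L.q (c + (rad i / 2) • L.a - c) ≠ 0
      rw [add_sub_cancel_left]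
      unfold Pl.q
      rw [inner_smul_right, inner_smul_right, L.aa, L.ba]
      have : (rad i / 2 * 1) ^ 2 + (rad i / 2 * 0) ^ 2 = (rad i / 2) ^ 2 := by ring
      rw [this]
      positivity
  · rintro u ⟨hu, -⟩
    have h1 : ‖u - c‖ < rad i := by
      refine lt_of_pow_lt_pow_left₀ 2 hr.le ?_
      have : ‖u - c‖ ^ 2 < rad i ^ 2 / 2 := hu
      nlinarith
    have h2 : ‖u‖ ≤ ‖u - c‖ + ‖c‖ := by
      have := norm_add_le (u - c) c
      rwa [sub_add_cancel] at this
    rw [hc, norm_cen] at h2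
    linarith [rho_le i, rad_le i]
  · rintro u ⟨hu, hq⟩
    have hq' : L.q (u - c) ≠ 0 := hq
    have hu' : ‖u - c‖ ^ 2 < rad i ^ 2 / 2 := hu
    have h1 : ‖u - c‖ < rad i := by
      refine lt_of_pow_lt_pow_left₀ 2 hr.le ?_
      nlinarith
    have hchi1 : chi (‖u - c‖ ^ 2 / rad i ^ 2) = 1 := by
      apply chi_one
      rw [div_le_iff₀ (by positivity)]
      linarith
    have hNi : 0 < N i := by have := hN2 i; omega
    have hfix : ∀ k : ℕ, (T L (fun i => 1 / (N i : ℝ)) θ)^[k] u = u ↔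
        Real.cos (k * (2 * Real.pi * (1 / (N i : ℝ)) * 1)) = 1 := by
      intro k
      rw [T_iter_fix L (σ := fun i => 1 / (N i : ℝ)) (θ := θ) h1.le k]
      have hchi2 : chi (‖u - cen L i (θ i)‖ ^ 2 / rad i ^ 2) = 1 := hchi1
      rw [hchi2]
      constructor
      · rintro (h | h)
        · exact absurd h hq'
        · exact h
      · intro h
        exact Or.inr h
    have hNi' : (N i : ℝ) ≠ 0 := by exact_mod_cast hNi.ne'
    refine ⟨?_, ?_⟩
    · rw [hfix]
      have : (N i : ℝ) * (2 * Real.pi * (1 / (N i : ℝ)) * 1) = 2 * Real.pi := by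
        field_simp
      rw [this, Real.cos_two_pi]
    · intro k hk hkN h
      rw [hfix] at h
      obtain ⟨m, hm⟩ := int_of_cos hNi h
      have h4 : (k : ℤ) = m * N i := by
        have : ((k : ℤ) : ℝ) = ((m * N i : ℤ) : ℝ) := by push_cast; linarith
        exact_mod_cast this
      have h5 : (N i : ℤ) ∣ k := ⟨m, by rw [h4]; ring⟩
      have := Nat.le_of_dvd hk (by exact_mod_cast h5)
      omega

end Pool.Agent.R604.TC
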