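import Pool.Agent.R604.TC.Conj
import Pool.Agent.R604.Erg

/-!
# Topological conjugacy of diffeomorphisms is not classifiable by countable structures
-/

set_option autoImplicit false
set_option linter.unusedSectionVars false
set_option linter.unusedVariables false

open Set Filter Topology TopologicalSpace
open scoped ContDiff Manifold

namespace Pool.Agent.R604.TC

open Pool.Agent.H410R3 Pool.Agent.H410R3.KS Pool.Agent.H410R3.DG

/-! ### the angles -/

/-- the angles -/
noncomputable def ang (x : ℕ → ℝ) (i : ℕ) : ℝ :=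
  if i % 2 = 0 then (1 - Real.cos (x (i / 2))) / 2
  else (denseSeq (Icc (0 : ℝ) 1) (Nat.unpair (i / 2)).1 : ℝ)

theorem ang_even (x : ℕ → ℝ) (k : ℕ) : ang x (2 * k) = (1 - Real.cos (x k)) / 2 := by
  rw [ang, if_pos (by omega), show 2 * k / 2 = k by omega]

theorem ang_odd (x : ℕ → ℝ) (k : ℕ) :
    ang x (2 * k + 1) = (denseSeq (Icc (0 : ℝ) 1) (Nat.unpair k).1 : ℝ) := by
  rw [ang, if_neg (by omega), show (2 * k + 1) / 2 = k by omega]

theorem continuous_ang : Continuous ang := by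
  refine continuous_pi fun i => ?_
  unfold ang
  by_cases h : i % 2 = 0
  · simp only [if_pos h]
    fun_prop
  · simp only [if_neg h]
    exact continuous_const

theorem cos_lip (a b : ℝ) : |Real.cos a - Real.cos b| ≤ |a - b| := Real.abs_cos_sub_cos_le a b

theorem summable_ang {x y : ℕ → ℝ} (h : Summable fun n => |x n - y n|) :
    Summable fun i => |ang y i - ang x i| := by
  have hinj : Function.Injective (fun k : ℕ => 2 * k) := fun a b hab => by
    simp only at hab; omega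
  rw [← hinj.summable_iff]
  · refine Summable.of_nonneg_of_le (fun k => abs_nonneg _) (fun k => ?_) h
    show |ang y (2 * k) - ang x (2 * k)| ≤ |x k - y k|
    rw [ang_even, ang_even]
    have h1 : (1 - Real.cos (y k)) / 2 - (1 - Real.cos (x k)) / 2 =
        (Real.cos (x k) - Real.cos (y k)) / 2 := by ring
    rw [h1, abs_div, abs_two]
    have h2 := cos_lip (x k) (y k)
    have h3 := abs_nonneg (Real.cos (x k) - Real.cos (y k))
    linarith
  · intro i hi
    have h1 : i % 2 = 1 := by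
      by_contra h2
      exact hi ⟨i / 2, by simp only; omega⟩
    rw [show i = 2 * (i / 2) + 1 by omega, ang_odd, ang_odd, sub_self, abs_zero]

section

variable {E : Type} [NormedAddCommGroup E] [InnerProductSpace ℝ E] [FiniteDimensional ℝ E]
  (L : Pl E) {M : Type} [TopologicalSpace M] [ChartedSpace E M] [T2Space M] (c : Ch E M)

theorem Per.map {X : Type*} {f g h : X → X} (hh : Function.Injective h)
    (hc : ∀ p, h (f p) = g (h p)) {N : ℕ} {p : X} (hp : Per f N p) : Per g N (h p) := by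
  have hk : ∀ k : ℕ, h (f^[k] p) = g^[k] (h p) := by
    intro k
    induction k with
    | zero => rfl
    | succ k ih => rw [Function.iterate_succ_apply', Function.iterate_succ_apply', hc, ih]
  refine ⟨?_, fun k h1 h2 h3 => ?_⟩
  · rw [← hk, hp.1]
  · rw [← hk] at h3
    exact hp.2 k h1 h2 (hh h3)

theorem T_four {σ θ : ℕ → ℝ} {u : E} (h : ‖u‖ < 4) : ‖T L σ θ u‖ < 4 := by
  rcases le_or_gt 3 ‖u‖ with h1 | h1
  · rw [T_far L h1]; exact h
  · exact (T_near L h1).trans (by norm_num)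

theorem T_four_iter {σ θ : ℕ → ℝ} {u : E} (h : ‖u‖ < 4) (k : ℕ) : ‖(T L σ θ)^[k] u‖ < 4 := by
  induction k with
  | zero => exact h
  | succ k ih => rw [Function.iterate_succ_apply']; exact T_four L ih

theorem ext_iter {σ θ : ℕ → ℝ} {u : E} (h : ‖u‖ < 4) (k : ℕ) :
    (c.ext (T L σ θ))^[k] (c.inc u : M) = c.inc ((T L σ θ)^[k] u) := by
  induction k with
  | zero => rfl
  | succ k ih =>
    rw [Function.iterate_succ_apply', Function.iterate_succ_apply', ih,
      c.ext_inc (T_four_iter L h k)]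

theorem inc_inj {u v : E} (hu : ‖u‖ < 4) (hv : ‖v‖ < 4) (h : (c.inc u : M) = c.inc v) : u = v := by
  rw [← c.out_inc hu, ← c.out_inc hv, h]

theorem Per_iff {σ θ : ℕ → ℝ} {u : E} (h : ‖u‖ < 4) (N : ℕ) :
    Per (c.ext (T L σ θ)) N (c.inc u : M) ↔ Per (T L σ θ) N u := by
  have key : ∀ k : ℕ, (c.ext (T L σ θ))^[k] (c.inc u : M) = c.inc u ↔ (T L σ θ)^[k] u = u := by
    intro k
    rw [ext_iter L c h]
    constructor
    · intro h1
      exact inc_inj c (T_four_iter L h k) h h1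
    · intro h1
      rw [h1]
  unfold Per
  rw [key]
  refine and_congr Iff.rfl (forall_congr' fun k => ?_)
  exact imp_congr Iff.rfl (imp_congr Iff.rfl (not_congr (key k)))

theorem perM_in {N : ℕ → ℕ} (hN : StrictMono N) (hN2 : ∀ i, 2 ≤ N i) {θ : ℕ → ℝ} {i : ℕ}
    {V : Set M} (hV : IsOpen V) {p : M} (hp : p ∈ V)
    (hper : ∀ q ∈ V, Per (c.ext (T L (fun i => 1 / (N i : ℝ)) θ)) (N i) q) :
    ∃ w : E, p = c.inc w ∧ ‖w - cen L i (θ i)‖ < rad i := by
  have h1 : c.ext (T L (fun i => 1 / (N i : ℝ)) θ) p ≠ p :=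
    (hper p hp).2 1 one_pos (by have := hN2 i; omega)
  have h2 : p ∈ (chartAt E c.m).source := by
    by_contra h
    exact h1 (c.ext_of_not_mem _ h)
  have h3 : ‖c.out p‖ < 3 := by
    by_contra h
    exact h1 (c.ext_far (T_Sp L _ _) h2 (not_lt.1 h))
  have hinc : ContinuousOn (c.inc : E → M) {u | ‖u‖ < 4} :=
    c.continuousOn_inc.mono fun u hu => c.hb u hu
  have ho4 : IsOpen {u : E | ‖u‖ < 4} := isOpen_lt continuous_norm continuous_const
  have hU : IsOpen ({u : E | ‖u‖ < 4} ∩ (c.inc : E → M) ⁻¹' V) :=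
    hinc.isOpen_inter_preimage ho4 hV
  refine ⟨c.out p, (c.inc_out h2).symm, ?_⟩
  refine per_in L hN hN2 (U := {u : E | ‖u‖ < 4} ∩ (c.inc : E → M) ⁻¹' V) hU ⟨?_, ?_⟩ ?_
  · show ‖c.out p‖ < 4
    linarith
  · show c.inc (c.out p) ∈ V
    rw [c.inc_out h2]
    exact hp
  · rintro u ⟨hu, huV⟩
    exact (Per_iff L c hu _).1 (hper _ huV)

theorem perM_ex {N : ℕ → ℕ} (hN2 : ∀ i, 2 ≤ N i) (θ : ℕ → ℝ) (i : ℕ) :
    ∃ V : Set M, IsOpen V ∧ V.Nonempty ∧
      ∀ q ∈ V, Per (c.ext (T L (fun i => 1 / (N i : ℝ)) θ)) (N i) q := by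
  obtain ⟨U, hU, ⟨u, hu⟩, hU3, hper⟩ := per_ex L hN2 θ i
  refine ⟨(chartAt E c.m).source ∩ c.out ⁻¹' U, ?_, ⟨c.inc u, ?_, ?_⟩, ?_⟩
  · exact c.continuousOn_out.isOpen_inter_preimage (chartAt E c.m).open_source hU
  · exact c.inc_mem (by have := hU3 u hu; linarith)
  · show c.out (c.inc u) ∈ U
    rw [c.out_inc (by have := hU3 u hu; linarith)]
    exact hu
  · rintro q ⟨hq1, hq2⟩
    have h3 := hU3 _ hq2
    have h4 := (Per_iff L c (σ := fun i => 1 / (N i : ℝ)) (θ := θ) (u := c.out q)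
      (by linarith) (N i)).2 (hper _ hq2)
    rwa [c.inc_out hq1] at h4

theorem lim_inc {u : ℕ → ℕ} (hu : Tendsto u atTop atTop) {w : ℕ → E} {θ : ℕ → ℝ} {t : ℝ}
    (hw : ∀ n, ‖w n - cen L (u n) (θ n)‖ < rad (u n)) (hθ : Tendsto θ atTop (𝓝 t)) :
    Tendsto (fun n => (c.inc (w n) : M)) atTop (𝓝 (c.inc (L.rot t L.a))) := by
  have h1 : Tendsto (fun n => cen L (u n) (θ n)) atTop (𝓝 ((1 : ℝ) • L.rot t L.a)) := by
    unfold cen
    refine (tendsto_rho.comp hu).smul ?_
    exact (L.continuous_rot.tendsto (t, L.a)).comp (hθ.prodMk_nhds tendsto_const_nhds)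
  rw [one_smul] at h1
  have h2 : Tendsto (fun n => w n - cen L (u n) (θ n)) atTop (𝓝 0) :=
    squeeze_zero_norm (fun n => (hw n).le) (tendsto_rad.comp hu)
  have h3 : Tendsto w atTop (𝓝 (L.rot t L.a)) := by
    have := h2.add h1
    simpa using this
  have h4 : ContinuousAt (c.inc : E → M) (L.rot t L.a) := by
    refine c.continuousOn_inc.continuousAt (c.isOpen_dom_inc.mem_nhds (c.hb _ ?_))
    rw [L.norm_rot, L.na]
    norm_num
  exact h4.tendsto.comp h3

theorem not_conj {N : ℕ → ℕ} (hN : StrictMono N) (hN2 : ∀ i, 2 ≤ N i) {x y : ℕ → ℝ}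
    (hxy : Pool.Agent.H468R2.MA.Gen x y) :
    ¬ TopConj (c.ext (T L (fun i => 1 / (N i : ℝ)) (ang x)) : M → M)
      (c.ext (T L (fun i => 1 / (N i : ℝ)) (ang y))) := by
  rintro ⟨h, hh⟩
  have hpt : ∀ i, ∃ w w' : E, h (c.inc w) = c.inc w' ∧ ‖w - cen L i (ang x i)‖ < rad i ∧
      ‖w' - cen L i (ang y i)‖ < rad i := by
    intro i
    obtain ⟨V, hV, ⟨p, hp⟩, hper⟩ := perM_ex L c hN2 (ang x) i
    obtain ⟨w, hw1, hw2⟩ := perM_in L c hN hN2 hV hp hper
    have hV' : IsOpen (h '' V) := h.isOpenMap V hV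
    obtain ⟨w', hw1', hw2'⟩ := perM_in L c hN hN2 (θ := ang y) (i := i) hV' (mem_image_of_mem h hp)
      (by
        rintro _ ⟨q, hq, rfl⟩
        exact (hper q hq).map h.injective hh)
    exact ⟨w, w', by rw [← hw1, hw1'], hw2, hw2'⟩
  choose w w' e hw hw' using hpt
  have key : ∀ (u : ℕ → ℕ) (t t' : ℝ), Tendsto u atTop atTop →
      Tendsto (fun n => ang x (u n)) atTop (𝓝 t) → Tendsto (fun n => ang y (u n)) atTop (𝓝 t') →
      h (c.inc (L.rot t L.a)) = c.inc (L.rot t' L.a) := by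
    intro u t t' hu ht ht'
    have h1 := lim_inc L c (M := M) hu (w := fun n => w (u n)) (fun n => hw (u n)) ht
    have h2 := lim_inc L c (M := M) hu (w := fun n => w' (u n)) (fun n => hw' (u n)) ht'
    have h3 := (h.continuous.tendsto _).comp h1
    refine tendsto_nhds_unique h3 (h2.congr fun n => ?_)
    exact (e (u n)).symm
  -- the arc is fixed pointwise
  have hfix : ∀ t ∈ Icc (0 : ℝ) 1, h (c.inc (L.rot t L.a)) = c.inc (L.rot t L.a) := by
    have hc1 : Continuous (fun t : Icc (0 : ℝ) 1 => (c.inc (L.rot (t : ℝ) L.a) : M)) := by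
      rw [continuous_iff_continuousAt]
      intro t
      have h4 : ContinuousAt (c.inc : E → M) (L.rot (t : ℝ) L.a) := by
        refine c.continuousOn_inc.continuousAt (c.isOpen_dom_inc.mem_nhds (c.hb _ ?_))
        rw [L.norm_rot, L.na]
        norm_num
      have h5 : ContinuousAt (fun t : Icc (0 : ℝ) 1 => L.rot (t : ℝ) L.a) t :=
        (L.continuous_rot.comp (continuous_subtype_val.prodMk continuous_const)).continuousAt
      exact ContinuousAt.comp (g := c.inc) h4 h5
    have h6 : ∀ t : Icc (0 : ℝ) 1, h (c.inc (L.rot (t : ℝ) L.a)) = c.inc (L.rot (t : ℝ) L.a) := by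
      have hd := denseRange_denseSeq (Icc (0 : ℝ) 1)
      have heq := hd.equalizer (h.continuous.comp hc1) hc1 (by
        funext k
        show h (c.inc (L.rot (denseSeq (Icc (0 : ℝ) 1) k : ℝ) L.a)) =
          c.inc (L.rot (denseSeq (Icc (0 : ℝ) 1) k : ℝ) L.a)
        have hang : ∀ (z : ℕ → ℝ) (n : ℕ), ang z (2 * Nat.pair k n + 1) =
            (denseSeq (Icc (0 : ℝ) 1) k : ℝ) := by
          intro z n
          rw [ang_odd, Nat.unpair_pair]
        refine key (fun n => 2 * Nat.pair k n + 1) _ _ ?_ ?_ ?_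
        · refine tendsto_atTop_mono (fun n => ?_) tendsto_id
          have := Nat.right_le_pair k n
          simp only [id]
          omega
        · simp only [hang]
          exact tendsto_const_nhds
        · simp only [hang]
          exact tendsto_const_nhds)
      intro t
      exact congrFun heq t
    intro t ht
    exact h6 ⟨t, ht⟩
  -- the generic pair
  choose k hk hk1 hk2 using hxy
  have hkt : Tendsto (fun n => 2 * k n) atTop atTop := by
    refine tendsto_atTop_mono (fun n => ?_) tendsto_id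
    have := hk n
    simp only [id]
    omega
  have hx0 : Tendsto (fun n => x (k n)) atTop (𝓝 0) :=
    squeeze_zero_norm (fun n => by rw [Real.norm_eq_abs]; exact hk1 n)
      tendsto_one_div_add_atTop_nhds_zero_nat
  have hy0 : Tendsto (fun n => y (k n)) atTop (𝓝 Real.pi) := by
    rw [tendsto_iff_norm_sub_tendsto_zero]
    exact squeeze_zero (fun n => norm_nonneg _) (fun n => by rw [Real.norm_eq_abs]; exact hk2 n)
      tendsto_one_div_add_atTop_nhds_zero_nat
  have h7 := key (fun n => 2 * k n) 0 1 hkt (by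
      simp only [ang_even]
      have := (((Real.continuous_cos.tendsto 0).comp hx0).const_sub 1).div_const 2
      simpa using this) (by
      simp only [ang_even]
      have := (((Real.continuous_cos.tendsto Real.pi).comp hy0).const_sub 1).div_const 2
      rw [Real.cos_pi] at this
      norm_num at this
      exact this)
  rw [hfix 0 (by simp)] at h7
  have h8 := inc_inj c (by rw [L.norm_rot, L.na]; norm_num) (by rw [L.norm_rot, L.na]; norm_num) h7
  rw [L.rot_zero] at h8
  have h9 := (L.rot_eq_self_iff 1 L.a).1 h8.symm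
  rcases h9 with h9 | h9
  · unfold Pl.q at h9
    rw [L.aa, L.ba] at h9
    norm_num at h9
  · have := Real.cos_one_le
    linarith

variable [IsManifold 𝓘(ℝ, E) ∞ M]

/-- the diffeomorphism of the manifold -/
noncomputable def FM {σ : ℕ → ℝ} (h1 : Bd L σ) (h2 : Bd L fun i => -σ i) (θ : ℕ → ℝ) :
    DiffR 𝓘(ℝ, E) M ⊤ :=
  { toFun := c.ext (T L σ θ)
    invFun := c.ext (T L (fun i => -σ i) θ)
    left_inv := fun p => by
      rw [c.ext_comp (T_Sp L _ _) (T_Sp L _ _)]
      have : T L (fun i => -σ i) θ ∘ T L σ θ = id := funext fun w => T_inv L σ θ w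
      rw [this, c.ext_id]
    right_inv := fun p => by
      rw [c.ext_comp (T_Sp L _ _) (T_Sp L _ _)]
      have : T L σ θ ∘ T L (fun i => -σ i) θ = id := funext fun w => by
        have := T_inv L (fun i => -σ i) θ w
        simpa using this
      rw [this, c.ext_id]
    contMDiff_toFun := c.contMDiff_ext (T_contDiff L h1 θ) (T_Sp L _ _)
    contMDiff_invFun := c.contMDiff_ext (T_contDiff L h2 θ) (T_Sp L _ _) }

theorem FM_cont {σ : ℕ → ℝ} (h1 : Bd L σ) (h2 : Bd L fun i => -σ i) :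
    @Continuous (ℕ → ℝ) (DiffR 𝓘(ℝ, E) M ⊤) _ (crTopology 𝓘(ℝ, E) M ⊤) (FM L c h1 h2) := by
  refine continuous_of_jetM (FM L c h1 h2) ?_ ?_
  · refine c.continuous_ext_family (Φ := fun θ => T L σ θ) ?_ (fun θ => T_Sp L _ _)
    rw [continuous_iff_continuousAt]
    intro q
    exact (T_jet L h1 q).continuousAt
  · exact c.jet_ext (fun θ => T_Sp L σ θ) (fun p => T_jet L h1 p)

end

universe v

open Pool.Agent.H468R2 in
/-- Topological conjugacy of diffeomorphisms of a compact manifold of dimension at least `2` is not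
Borel reducible to a Borel action of `S_∞`. -/
theorem main {E : Type} [NormedAddCommGroup E] [InnerProductSpace ℝ E] [FiniteDimensional ℝ E]
    (L : Pl E) {M : Type} [TopologicalSpace M] [ChartedSpace E M] [T2Space M] [Nonempty M]
    [IsManifold 𝓘(ℝ, E) ∞ M]
    (Z : Type v) [MeasurableSpace Z] [StandardBorelSpace Z] [MulAction (Equiv.Perm ℕ) Z]
    (hZ : @Measurable _ _ (KA.permMS.prod inferInstance) _
      (fun p : Equiv.Perm ℕ × Z => p.1 • p.2)) :
    ¬ ∃ f : DiffR 𝓘(ℝ, E) M ⊤ → Z,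
      @Measurable _ _ (@borel _ (crTopology 𝓘(ℝ, E) M ⊤)) _ f ∧
      ∀ S T : DiffR 𝓘(ℝ, E) M ⊤, TopConj S.map T.map ↔ ∃ π : Equiv.Perm ℕ, π • f S = f T := by
  rintro ⟨f, hf, hred⟩
  obtain ⟨c⟩ := exists_Ch (E := E) (M := M)
  obtain ⟨N, hN, hN2, h1, h2⟩ := exists_NN L
  let F : (ℕ → ℝ) → DiffR 𝓘(ℝ, E) M ⊤ := fun x => FM L c h1 h2 (ang x)
  have hF : @Continuous (ℕ → ℝ) (DiffR 𝓘(ℝ, E) M ⊤) _ (crTopology 𝓘(ℝ, E) M ⊤) F := by
    let _ := crTopology 𝓘(ℝ, E) M ⊤
    exact (FM_cont L c h1 h2).comp continuous_ang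
  have hm : Measurable (fun x => f (F x)) := by
    let _ := crTopology 𝓘(ℝ, E) M ⊤
    let _ : MeasurableSpace (DiffR 𝓘(ℝ, E) M ⊤) := borel _
    have _ : BorelSpace (DiffR 𝓘(ℝ, E) M ⊤) := ⟨rfl⟩
    exact hf.comp hF.measurable
  obtain ⟨x, y, hxy, hπ⟩ := exists_gen Z hZ (fun x => f (F x)) hm (fun x y hs =>
    (hred _ _).1 (conj_of_summable L c (summable_ang hs)))
  exact not_conj L c hN hN2 hxy ((hred _ _).2 hπ)

end Pool.Agent.R604.TC
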