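import Mathlib

/-!
# Rotations in a plane
-/

set_option autoImplicit false
set_option linter.unusedSectionVars false

open Set Filter Topology
open scoped ContDiff

namespace Pool.Agent.R604.TC

/-- An orthonormal pair of vectors. -/
structure Pl (E : Type) [NormedAddCommGroup E] [InnerProductSpace ℝ E] where
  a : E
  b : E
  na : ‖a‖ = 1
  nb : ‖b‖ = 1
  ab : inner ℝ a b = 0

variable {E : Type} [NormedAddCommGroup E] [InnerProductSpace ℝ E] (L : Pl E)

namespace Pl

/-- The rotation by the angle `α` in the plane of `L`. -/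
noncomputable def rot (α : ℝ) (v : E) : E :=
  v + (((Real.cos α - 1) * inner ℝ L.a v - Real.sin α * inner ℝ L.b v) • L.a +
    ((Real.cos α - 1) * inner ℝ L.b v + Real.sin α * inner ℝ L.a v) • L.b)

/-- The square of the norm of the projection to the plane. -/
noncomputable def q (v : E) : ℝ := (inner ℝ L.a v) ^ 2 + (inner ℝ L.b v) ^ 2

theorem ba : inner ℝ L.b L.a = 0 := by rw [real_inner_comm]; exact L.ab

theorem aa : inner ℝ L.a L.a = 1 := by rw [real_inner_self_eq_norm_sq, L.na]; norm_num

theorem bb : inner ℝ L.b L.b = 1 := by rw [real_inner_self_eq_norm_sq, L.nb]; norm_num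

theorem inner_a_rot (α : ℝ) (v : E) :
    inner ℝ L.a (L.rot α v) = Real.cos α * inner ℝ L.a v - Real.sin α * inner ℝ L.b v := by
  simp only [rot, inner_add_right, inner_smul_right, L.ab, L.aa]
  ring

theorem inner_b_rot (α : ℝ) (v : E) :
    inner ℝ L.b (L.rot α v) = Real.sin α * inner ℝ L.a v + Real.cos α * inner ℝ L.b v := by
  simp only [rot, inner_add_right, inner_smul_right, L.ba, L.bb]
  ring

theorem rot_zero (v : E) : L.rot 0 v = v := by
  simp [rot]

theorem rot_add (α β : ℝ) (v : E) : L.rot (α + β) v = L.rot α (L.rot β v) := by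
  rw [rot, rot, inner_a_rot, inner_b_rot, rot, Real.cos_add, Real.sin_add]
  module

theorem rot_neg_rot (α : ℝ) (v : E) : L.rot (-α) (L.rot α v) = v := by
  rw [← rot_add, neg_add_cancel, rot_zero]

theorem rot_rot_neg (α : ℝ) (v : E) : L.rot α (L.rot (-α) v) = v := by
  rw [← rot_add, add_neg_cancel, rot_zero]

theorem rot_sub (α : ℝ) (v w : E) : L.rot α (v - w) = L.rot α v - L.rot α w := by
  simp only [rot, inner_sub_right]
  module

theorem rot_vadd (α : ℝ) (v w : E) : L.rot α (v + w) = L.rot α v + L.rot α w := by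
  simp only [rot, inner_add_right]
  module

theorem rot_comm (α β : ℝ) (v : E) : L.rot α (L.rot β v) = L.rot β (L.rot α v) := by
  rw [← rot_add, ← rot_add, add_comm]

theorem norm_rot (α : ℝ) (v : E) : ‖L.rot α v‖ = ‖v‖ := by
  have h : ‖L.rot α v‖ ^ 2 = ‖v‖ ^ 2 := by
    have e1 : inner ℝ v L.a = inner ℝ L.a v := real_inner_comm _ _
    have e2 : inner ℝ v L.b = inner ℝ L.b v := real_inner_comm _ _
    rw [rot, ← real_inner_self_eq_norm_sq, ← real_inner_self_eq_norm_sq]
    simp only [inner_add_right, inner_add_left, inner_smul_right, inner_smul_left, L.ab, L.aa,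
      L.bb, L.ba, e1, e2, conj_trivial]
    have h1 := Real.sin_sq_add_cos_sq α
    linear_combination ((inner ℝ L.a v) ^ 2 + (inner ℝ L.b v) ^ 2) * h1
  exact (pow_left_inj₀ (norm_nonneg _) (norm_nonneg _) two_ne_zero).1 h

theorem q_rot (α : ℝ) (v : E) : L.q (L.rot α v) = L.q v := by
  rw [q, q, inner_a_rot, inner_b_rot]
  have h1 := Real.sin_sq_add_cos_sq α
  linear_combination ((inner ℝ L.a v) ^ 2 + (inner ℝ L.b v) ^ 2) * h1

theorem q_nonneg (v : E) : 0 ≤ L.q v := by
  unfold q
  positivity

theorem rot_eq_self_iff (α : ℝ) (v : E) : L.rot α v = v ↔ L.q v = 0 ∨ Real.cos α = 1 := by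
  constructor
  · intro h
    have h1 := L.inner_a_rot α v
    have h2 := L.inner_b_rot α v
    rw [h] at h1 h2
    have h3 := Real.sin_sq_add_cos_sq α
    have h4 : L.q v * (1 - Real.cos α) = 0 := by
      unfold q
      have h5 : (1 - Real.cos α) * (inner ℝ L.a v) + Real.sin α * (inner ℝ L.b v) = 0 := by
        linear_combination h1
      have h6 : (1 - Real.cos α) * (inner ℝ L.b v) - Real.sin α * (inner ℝ L.a v) = 0 := by
        linear_combination h2
      have h7 : ((inner ℝ L.a v) ^ 2 + (inner ℝ L.b v) ^ 2) *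
          ((1 - Real.cos α) ^ 2 + Real.sin α ^ 2) = 0 := by
        linear_combination ((1 - Real.cos α) * (inner ℝ L.a v) + Real.sin α * (inner ℝ L.b v)) * h5
          + ((1 - Real.cos α) * (inner ℝ L.b v) - Real.sin α * (inner ℝ L.a v)) * h6
      linear_combination (1 / 2 : ℝ) * h7 - (1 / 2 : ℝ) * ((inner ℝ L.a v) ^ 2 +
        (inner ℝ L.b v) ^ 2) * h3
    rcases mul_eq_zero.1 h4 with h5 | h5
    · exact Or.inl h5
    · exact Or.inr (by linarith)
  · rintro (h | h)
    · have h1 : inner ℝ L.a v = 0 := by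
        unfold q at h
        nlinarith [sq_nonneg (inner ℝ L.a v), sq_nonneg (inner ℝ L.b v)]
      have h2 : inner ℝ L.b v = 0 := by
        unfold q at h
        nlinarith [sq_nonneg (inner ℝ L.a v), sq_nonneg (inner ℝ L.b v)]
      simp [rot, h1, h2]
    · have h1 : Real.sin α = 0 := by
        have h3 := Real.sin_sq_add_cos_sq α
        rw [h] at h3
        nlinarith [sq_nonneg (Real.sin α)]
      simp [rot, h, h1]

theorem contDiff_rot : ContDiff ℝ ∞ (fun p : ℝ × E => L.rot p.1 p.2) := by
  unfold rot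
  have ha : ContDiff ℝ ∞ (fun p : ℝ × E => inner ℝ L.a p.2) :=
    contDiff_const.inner ℝ contDiff_snd
  have hb : ContDiff ℝ ∞ (fun p : ℝ × E => inner ℝ L.b p.2) :=
    contDiff_const.inner ℝ contDiff_snd
  have hc : ContDiff ℝ ∞ (fun p : ℝ × E => Real.cos p.1) := Real.contDiff_cos.comp contDiff_fst
  have hs : ContDiff ℝ ∞ (fun p : ℝ × E => Real.sin p.1) := Real.contDiff_sin.comp contDiff_fst
  exact contDiff_snd.add (((((hc.sub contDiff_const).mul ha).sub (hs.mul hb)).smul
    contDiff_const).add ((((hc.sub contDiff_const).mul hb).add (hs.mul ha)).smul contDiff_const))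

theorem continuous_rot : Continuous (fun p : ℝ × E => L.rot p.1 p.2) := L.contDiff_rot.continuous

theorem iterate_rot (α : ℝ) (v : E) (k : ℕ) : (L.rot α)^[k] v = L.rot (k * α) v := by
  induction k with
  | zero => simp [rot_zero]
  | succ k ih =>
    rw [Function.iterate_succ_apply', ih, ← rot_add]
    congr 1
    push_cast
    ring

end Pl

/-! ### the bump function -/

/-- A smooth function, `1` for `t ≤ 1/2`, `0` for `t ≥ 1`, strictly decreasing in between. -/
noncomputable def chi (t : ℝ) : ℝ := 1 - Real.smoothTransition (2 * t - 1)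

theorem chi_contDiff : ContDiff ℝ ∞ chi := by
  unfold chi
  exact contDiff_const.sub (Real.smoothTransition.contDiff.comp
    ((contDiff_const.mul contDiff_id).sub contDiff_const))

theorem chi_one {t : ℝ} (h : t ≤ 1 / 2) : chi t = 1 := by
  rw [chi, Real.smoothTransition.zero_of_nonpos (by linarith), sub_zero]

theorem chi_zero {t : ℝ} (h : 1 ≤ t) : chi t = 0 := by
  rw [chi, Real.smoothTransition.one_of_one_le (by linarith), sub_self]

theorem glue_mono {x y : ℝ} (hx : 0 ≤ x) (h : x < y) : expNegInvGlue x < expNegInvGlue y := by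
  rcases hx.eq_or_lt with rfl | hx
  · rw [expNegInvGlue.zero_of_nonpos le_rfl]
    exact expNegInvGlue.pos_of_pos h
  · have hy := hx.trans h
    rw [expNegInvGlue, expNegInvGlue, if_neg (not_le.2 hx), if_neg (not_le.2 hy)]
    apply Real.exp_lt_exp.2
    apply neg_lt_neg
    exact (inv_lt_inv₀ hy hx).2 h

theorem smoothTransition_lt {x y : ℝ} (hx : 0 ≤ x) (h : x < y) (hy : y ≤ 1) :
    Real.smoothTransition x < Real.smoothTransition y := by
  have h1 : expNegInvGlue x < expNegInvGlue y := glue_mono hx h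
  have h2 : expNegInvGlue (1 - y) < expNegInvGlue (1 - x) := glue_mono (by linarith) (by linarith)
  have h3 := expNegInvGlue.nonneg x
  have h4 := expNegInvGlue.nonneg (1 - y)
  have p1 := Real.smoothTransition.pos_denom x
  have p2 := Real.smoothTransition.pos_denom y
  rw [Real.smoothTransition, Real.smoothTransition, div_lt_div_iff₀ p1 p2]
  nlinarith

theorem chi_lt {s t : ℝ} (hs : 1 / 2 ≤ s) (h : s < t) (ht : t ≤ 1) : chi t < chi s := by
  unfold chi
  have := smoothTransition_lt (x := 2 * s - 1) (y := 2 * t - 1) (by linarith) (by linarith)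
    (by linarith)
  linarith

theorem chi_le_one (t : ℝ) : chi t ≤ 1 := by
  unfold chi
  linarith [Real.smoothTransition.nonneg (2 * t - 1)]

theorem chi_nonneg (t : ℝ) : 0 ≤ chi t := by
  unfold chi
  linarith [Real.smoothTransition.le_one (2 * t - 1)]

theorem chi_pos {t : ℝ} (h : t < 1) : 0 < chi t := by
  rcases le_or_gt t (1 / 2) with h1 | h1
  · rw [chi_one h1]; exact one_pos
  · have := chi_lt h1.le h le_rfl
    rwa [chi_zero le_rfl] at this

end Pool.Agent.R604.TC
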