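import Pool.Agent.R604.TC.Rot
import Pool.Agent.H410R3.KS.Par
import Pool.Agent.H410R3.DG.Jet

/-!
# A smooth family of small perturbations of the identity
-/

set_option autoImplicit false
set_option linter.unusedSectionVars false

open Set Filter Topology
open scoped ContDiff

namespace Pool.Agent.R604.TC

open Pool.Agent.H410R3

variable {E : Type} [NormedAddCommGroup E] [InnerProductSpace ℝ E] [FiniteDimensional ℝ E]
  (L : Pl E)

/-- The local perturbation. -/
noncomputable def wob (s r : ℝ) (v : E) : E :=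
  L.rot (2 * Real.pi * s * chi (‖v‖ ^ 2 / r ^ 2)) v - v

theorem wob_zero {s r : ℝ} (hr : 0 < r) {v : E} (h : r ≤ ‖v‖) : wob L s r v = 0 := by
  have h1 : 1 ≤ ‖v‖ ^ 2 / r ^ 2 := by
    rw [le_div_iff₀ (by positivity), one_mul]
    exact pow_le_pow_left₀ hr.le h 2
  rw [wob, chi_zero h1, mul_zero, L.rot_zero, sub_self]

theorem wob_joint (r : ℝ) : ContDiff ℝ ∞ (fun q : ℝ × E => wob L q.1 r q.2) := by
  unfold wob
  have h1 : ContDiff ℝ ∞ (fun q : ℝ × E => chi (‖q.2‖ ^ 2 / r ^ 2)) :=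
    chi_contDiff.comp ((contDiff_snd.norm_sq ℝ).div_const _)
  have h2 : ContDiff ℝ ∞ (fun q : ℝ × E => (2 * Real.pi * q.1 * chi (‖q.2‖ ^ 2 / r ^ 2), q.2)) :=
    ((contDiff_const.mul contDiff_fst).mul h1).prodMk contDiff_snd
  exact (L.contDiff_rot.comp h2).sub contDiff_snd

theorem wob_contDiff (s r : ℝ) : ContDiff ℝ ∞ (wob L s r) :=
  (wob_joint L r).comp (contDiff_const.prodMk contDiff_id : ContDiff ℝ ∞ (fun v : E => (s, v)))

theorem wob_iter_zero {s r : ℝ} (hr : 0 < r) {v : E} (h : r < ‖v‖) (k : ℕ) :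
    iteratedFDeriv ℝ k (wob L s r) v = 0 := by
  have h1 : wob L s r =ᶠ[𝓝 v] fun _ => (0 : E) := by
    have h2 : ∀ᶠ w : E in 𝓝 v, r < ‖w‖ := continuous_norm.continuousAt.eventually_const_lt h
    filter_upwards [h2] with w hw
    exact wob_zero L hr hw.le
  rw [(h1.iteratedFDeriv ℝ k).eq_of_nhds]
  simp [iteratedFDeriv_fun_zero]

theorem wob_small {r : ℝ} (hr : 0 < r) (k : ℕ) {ε : ℝ} (hε : 0 < ε) :
    ∀ᶠ s in 𝓝 (0 : ℝ), ∀ v : E, ‖iteratedFDeriv ℝ k (wob L s r) v‖ < ε := by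
  have h0 : ∀ v : E, iteratedFDeriv ℝ k (wob L 0 r) v = 0 := by
    intro v
    have : wob L 0 r = fun _ => (0 : E) := by
      funext w
      rw [wob, mul_zero, zero_mul, L.rot_zero, sub_self]
    rw [this]
    simp [iteratedFDeriv_fun_zero]
  have hK : IsCompact (Metric.closedBall (0 : E) r) := isCompact_closedBall 0 r
  have key : ∀ v ∈ Metric.closedBall (0 : E) r, ∀ᶠ q : ℝ × E in 𝓝 ((0 : ℝ), v),
      ‖iteratedFDeriv ℝ k (wob L q.1 r) q.2‖ < ε := by
    intro v _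
    have h1 := KS.partial_cont (R := fun q : ℝ × E => wob L q.1 r q.2) (q := ((0 : ℝ), v))
      (wob_joint L r).contDiffAt k
    have h2 := h1.norm
    refine h2.eventually (gt_mem_nhds ?_)
    show ‖iteratedFDeriv ℝ k (wob L 0 r) v‖ < ε
    rw [h0, norm_zero]
    exact hε
  have h3 := hK.eventually_forall_of_forall_eventually (x₀ := (0 : ℝ))
    (P := fun s v => ‖iteratedFDeriv ℝ k (wob L s r) v‖ < ε) key
  filter_upwards [h3] with s hs v
  rcases le_or_gt ‖v‖ r with h | h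
  · exact hs v (by simpa using h)
  · rw [wob_iter_zero L hr h, norm_zero]
    exact hε

theorem wob_bdd {s r : ℝ} (hr : 0 < r) (k : ℕ) :
    ∃ C : ℝ, ∀ v : E, ‖iteratedFDeriv ℝ k (wob L s r) v‖ ≤ C := by
  have hK : IsCompact (Metric.closedBall (0 : E) r) := isCompact_closedBall 0 r
  have hc : Continuous (fun v : E => ‖iteratedFDeriv ℝ k (wob L s r) v‖) :=
    ((wob_contDiff L s r).continuous_iteratedFDeriv (by exact_mod_cast le_top)).norm
  obtain ⟨C, hC⟩ := hK.bddAbove_image hc.continuousOn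
  refine ⟨max C 0, fun v => ?_⟩
  rcases le_or_gt ‖v‖ r with h | h
  · exact (hC ⟨v, by simpa using h, rfl⟩).trans (le_max_left _ _)
  · rw [wob_iter_zero L hr h, norm_zero]
    exact le_max_right _ _

/-! ### the geometry -/

/-- radii of the shells -/
noncomputable def rho (i : ℕ) : ℝ := 1 + 1 / ((i : ℝ) + 1)

/-- half widths of the shells -/
noncomputable def wid (i : ℕ) : ℝ := 1 / (3 * (((i : ℝ) + 1) * ((i : ℝ) + 2)))

/-- radii of the balls -/
noncomputable def rad (i : ℕ) : ℝ := wid i / 2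

theorem wid_pos (i : ℕ) : 0 < wid i := by unfold wid; positivity

theorem rad_pos (i : ℕ) : 0 < rad i := half_pos (wid_pos i)

theorem wid_le (i : ℕ) : wid i ≤ 1 / 6 := by
  unfold wid
  rw [div_le_div_iff₀ (by positivity) (by norm_num)]
  have : (0 : ℝ) ≤ i := Nat.cast_nonneg i
  nlinarith

theorem rad_le (i : ℕ) : rad i ≤ 1 / 12 := by
  unfold rad
  linarith [wid_le i]

theorem rho_ge (i : ℕ) : 1 < rho i := by
  unfold rho
  have : (0 : ℝ) < 1 / ((i : ℝ) + 1) := by positivity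
  linarith

theorem rho_le (i : ℕ) : rho i ≤ 2 := by
  unfold rho
  have : (1 : ℝ) / ((i : ℝ) + 1) ≤ 1 := by
    rw [div_le_one (by positivity)]
    linarith [(Nat.cast_nonneg i : (0 : ℝ) ≤ i)]
  linarith

theorem tendsto_rho : Tendsto rho atTop (𝓝 1) := by
  have h := tendsto_one_div_add_atTop_nhds_zero_nat (𝕜 := ℝ)
  have h2 := h.const_add 1
  rw [add_zero] at h2
  exact h2

theorem tendsto_rad : Tendsto rad atTop (𝓝 0) := by
  have h := tendsto_one_div_add_atTop_nhds_zero_nat (𝕜 := ℝ)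
  refine squeeze_zero (fun i => (rad_pos i).le) (fun i => ?_) h
  unfold rad wid
  rw [div_div, div_le_div_iff₀ (by positivity) (by positivity)]
  have : (0 : ℝ) ≤ i := Nat.cast_nonneg i
  nlinarith

theorem shell_aux {i j : ℕ} (h : i < j) : wid i + wid j ≤ rho i - rho j := by
  have hi : (0 : ℝ) ≤ i := Nat.cast_nonneg i
  have hij : (i : ℝ) + 1 ≤ j := by exact_mod_cast h
  have h1 : wid j ≤ wid i := by
    unfold wid
    rw [div_le_div_iff₀ (by positivity) (by positivity)]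
    nlinarith
  have h2 : 3 * wid i ≤ rho i - rho j := by
    have h3 : 1 / ((j : ℝ) + 1) ≤ 1 / ((i : ℝ) + 2) := by
      rw [div_le_div_iff₀ (by positivity) (by positivity)]
      linarith
    have h4 : 3 * wid i = 1 / ((i : ℝ) + 1) - 1 / ((i : ℝ) + 2) := by
      unfold wid
      field_simp
      ring
    unfold rho
    linarith
  have := wid_pos i
  linarith

theorem shell {i j : ℕ} (h : i ≠ j) : wid i + wid j ≤ |rho i - rho j| := by
  rcases lt_or_gt_of_ne h with h | h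
  · exact (shell_aux h).trans (le_abs_self _)
  · have := shell_aux h
    rw [abs_sub_comm]
    exact (by linarith : wid i + wid j ≤ rho j - rho i).trans (le_abs_self _)

/-- centres -/
noncomputable def cen (i : ℕ) (t : ℝ) : E := rho i • L.rot t L.a

theorem norm_cen (i : ℕ) (t : ℝ) : ‖cen L i t‖ = rho i := by
  rw [cen, norm_smul, L.norm_rot, L.na, mul_one, Real.norm_of_nonneg (by linarith [rho_ge i])]

theorem rot_smul (L : Pl E) (t c : ℝ) (v : E) : L.rot t (c • v) = c • L.rot t v := by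
  simp only [Pl.rot, inner_smul_right]
  module

theorem rot_cen (i : ℕ) (s t : ℝ) : L.rot s (cen L i t) = cen L i (s + t) := by
  rw [cen, cen, rot_smul, ← L.rot_add]

theorem continuous_cen (i : ℕ) : Continuous (cen L i) := by
  unfold cen
  exact (L.continuous_rot.comp (continuous_id.prodMk continuous_const)).const_smul _

/-- If `w` lies in the shell `i`, it is not in the interior of the ball `j`. -/
theorem out_ball {i j : ℕ} (h : i ≠ j) {w : E} (hw : |‖w‖ - rho i| ≤ wid i) (t : ℝ) :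
    rad j ≤ ‖w - cen L j t‖ := by
  have h1 := shell h
  have h2 : |‖w‖ - ‖cen L j t‖| ≤ ‖w - cen L j t‖ := abs_norm_sub_norm_le _ _
  rw [norm_cen] at h2
  have h3 : |rho i - rho j| ≤ |‖w‖ - rho i| + |‖w‖ - rho j| := by
    rw [show rho i - rho j = (‖w‖ - rho j) - (‖w‖ - rho i) by ring]
    exact (abs_sub _ _).trans (by linarith)
  have h4 : rad j ≤ wid j := by unfold rad; linarith [wid_pos j]
  linarith

theorem in_shell {i : ℕ} {w : E} {t : ℝ} (h : ‖w - cen L i t‖ ≤ rad i) :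
    |‖w‖ - rho i| ≤ rad i := by
  have h2 : |‖w‖ - ‖cen L i t‖| ≤ ‖w - cen L i t‖ := abs_norm_sub_norm_le _ _
  rw [norm_cen] at h2
  linarith

/-! ### the family -/

/-- The perturbation of the identity with strengths `σ` and angles `θ`. -/
noncomputable def T (σ θ : ℕ → ℝ) (w : E) : E :=
  w + ∑' i, wob L (σ i) (rad i) (w - cen L i (θ i))

theorem T_in {σ θ : ℕ → ℝ} {w : E} {i : ℕ} (h : ‖w - cen L i (θ i)‖ ≤ rad i) :
    T L σ θ w = cen L i (θ i) +
      L.rot (2 * Real.pi * σ i * chi (‖w - cen L i (θ i)‖ ^ 2 / rad i ^ 2))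
        (w - cen L i (θ i)) := by
  rw [T, tsum_eq_single i]
  · rw [wob]
    abel
  · intro j hj
    apply wob_zero L (rad_pos j)
    refine out_ball L (Ne.symm hj) ?_ _
    exact (in_shell L h).trans (by unfold rad; linarith [wid_pos i])

theorem T_out {σ θ : ℕ → ℝ} {w : E} (h : ∀ i, rad i ≤ ‖w - cen L i (θ i)‖) :
    T L σ θ w = w := by
  rw [T]
  have : ∀ i, wob L (σ i) (rad i) (w - cen L i (θ i)) = 0 := fun i => wob_zero L (rad_pos i) (h i)
  simp [this]

theorem T_far {σ θ : ℕ → ℝ} {w : E} (h : 3 ≤ ‖w‖) : T L σ θ w = w := by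
  apply T_out
  intro i
  have h2 : ‖w‖ - ‖cen L i (θ i)‖ ≤ ‖w - cen L i (θ i)‖ := norm_sub_norm_le _ _
  rw [norm_cen] at h2
  linarith [rho_le i, rad_le i]

theorem T_near {σ θ : ℕ → ℝ} {w : E} (h : ‖w‖ < 3) : ‖T L σ θ w‖ < 3 := by
  by_cases h1 : ∀ i, rad i ≤ ‖w - cen L i (θ i)‖
  · rw [T_out L h1]; exact h
  · push Not at h1
    obtain ⟨i, hi⟩ := h1
    rw [T_in L hi.le]
    refine (norm_add_le _ _).trans_lt ?_
    rw [L.norm_rot, norm_cen]
    linarith [rho_le i, rad_le i]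

/-- the ball is invariant -/
theorem T_ball {σ θ : ℕ → ℝ} {w : E} {i : ℕ} (h : ‖w - cen L i (θ i)‖ ≤ rad i) :
    ‖T L σ θ w - cen L i (θ i)‖ = ‖w - cen L i (θ i)‖ := by
  rw [T_in L h, add_sub_cancel_left, L.norm_rot]

theorem T_inv (σ θ : ℕ → ℝ) (w : E) : T L (fun i => -σ i) θ (T L σ θ w) = w := by
  by_cases h1 : ∀ i, rad i ≤ ‖w - cen L i (θ i)‖
  · rw [T_out L h1, T_out L h1]
  · push Not at h1
    obtain ⟨i, hi⟩ := h1
    have h2 := T_ball L (σ := σ) hi.le
    rw [T_in L (by rw [h2]; exact hi.le), h2, T_in L hi.le, add_sub_cancel_left, ← L.rot_add]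
    rw [show 2 * Real.pi * -σ i * chi (‖w - cen L i (θ i)‖ ^ 2 / rad i ^ 2) +
      2 * Real.pi * σ i * chi (‖w - cen L i (θ i)‖ ^ 2 / rad i ^ 2) = 0 by ring, L.rot_zero]
    abel

/-- the bounds on the strengths -/
def Bd (σ : ℕ → ℝ) : Prop := ∀ i k : ℕ, k ≤ i → ∀ v : E,
  ‖iteratedFDeriv ℝ k (wob L (σ i) (rad i)) v‖ ≤ (1 / 2 : ℝ) ^ i

theorem exists_NN : ∃ N : ℕ → ℕ, StrictMono N ∧ (∀ i, 2 ≤ N i) ∧
    Bd L (fun i => 1 / (N i : ℝ)) ∧ Bd L (fun i => -(1 / (N i : ℝ))) := by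
  have hlim : Tendsto (fun n : ℕ => 1 / (n : ℝ)) atTop (𝓝 0) := tendsto_one_div_atTop_nhds_zero_nat
  have hlim' : Tendsto (fun n : ℕ => -(1 / (n : ℝ))) atTop (𝓝 0) := by
    simpa using hlim.neg
  have h : ∀ i : ℕ, ∀ᶠ n : ℕ in atTop, 2 ≤ n ∧ (∀ k ≤ i, ∀ v : E,
      ‖iteratedFDeriv ℝ k (wob L (1 / (n : ℝ)) (rad i)) v‖ ≤ (1 / 2 : ℝ) ^ i) ∧
      ∀ k ≤ i, ∀ v : E,
      ‖iteratedFDeriv ℝ k (wob L (-(1 / (n : ℝ))) (rad i)) v‖ ≤ (1 / 2 : ℝ) ^ i := by
    intro i
    refine (eventually_ge_atTop 2).and (Eventually.and ?_ ?_)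
    · have h1 : ∀ k ∈ Finset.range (i + 1), ∀ᶠ n : ℕ in atTop, ∀ v : E,
          ‖iteratedFDeriv ℝ k (wob L (1 / (n : ℝ)) (rad i)) v‖ ≤ (1 / 2 : ℝ) ^ i := by
        intro k _
        filter_upwards [hlim.eventually (wob_small L (rad_pos i) k
          (by positivity : (0 : ℝ) < (1 / 2 : ℝ) ^ i))] with n hn v using (hn v).le
      filter_upwards [(Filter.eventually_all_finset _).2 h1] with n hn k hk
      exact hn k (Finset.mem_range.2 (Nat.lt_succ_of_le hk))
    · have h1 : ∀ k ∈ Finset.range (i + 1), ∀ᶠ n : ℕ in atTop, ∀ v : E,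
          ‖iteratedFDeriv ℝ k (wob L (-(1 / (n : ℝ))) (rad i)) v‖ ≤ (1 / 2 : ℝ) ^ i := by
        intro k _
        filter_upwards [hlim'.eventually (wob_small L (rad_pos i) k
          (by positivity : (0 : ℝ) < (1 / 2 : ℝ) ^ i))] with n hn v using (hn v).le
      filter_upwards [(Filter.eventually_all_finset _).2 h1] with n hn k hk
      exact hn k (Finset.mem_range.2 (Nat.lt_succ_of_le hk))
  obtain ⟨N, hN, hN'⟩ := extraction_forall_of_eventually h
  exact ⟨N, hN, fun i => (hN' i).1, fun i => (hN' i).2.1, fun i => (hN' i).2.2⟩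

theorem exists_bound {σ : ℕ → ℝ} (h : Bd L σ) : ∃ v : ℕ → ℕ → ℝ, (∀ k, Summable (v k)) ∧
    ∀ k i, ∀ w : E, ‖iteratedFDeriv ℝ k (wob L (σ i) (rad i)) w‖ ≤ v k i := by
  choose C hC using fun k i => wob_bdd L (s := σ i) (rad_pos i) k
  refine ⟨fun k i => if k ≤ i then (1 / 2 : ℝ) ^ i else C k i, fun k => ?_, fun k i w => ?_⟩
  · have h1 : Summable (fun i : ℕ => (1 / 2 : ℝ) ^ i) := summable_geometric_two
    refine h1.congr_cofinite ?_
    rw [Nat.cofinite_eq_atTop]
    filter_upwards [eventually_ge_atTop k] with i hi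
    rw [if_pos hi]
  · by_cases hk : k ≤ i
    · simp only [if_pos hk]; exact h i k hk w
    · simp only [if_neg hk]; exact hC k i w

theorem iter_shift (k i : ℕ) (s : ℝ) (c w : E) :
    iteratedFDeriv ℝ k (fun v => wob L s (rad i) (v - c)) w =
      iteratedFDeriv ℝ k (wob L s (rad i)) (w - c) := by
  rw [iteratedFDeriv_comp_sub]

theorem sum_contDiff {σ : ℕ → ℝ} (h : Bd L σ) (θ : ℕ → ℝ) :
    ContDiff ℝ ∞ (fun w => ∑' i, wob L (σ i) (rad i) (w - cen L i (θ i))) := by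
  obtain ⟨v, hv, hv'⟩ := exists_bound L h
  refine contDiff_tsum (v := v) (fun i => (wob_contDiff L _ _).comp (contDiff_id.sub contDiff_const))
    (fun k _ => hv k) ?_
  intro k i w _
  rw [iter_shift]
  exact hv' k i _

theorem T_contDiff {σ : ℕ → ℝ} (h : Bd L σ) (θ : ℕ → ℝ) : ContDiff ℝ ∞ (T L σ θ) :=
  contDiff_id.add (sum_contDiff L h θ)

theorem T_jet {σ : ℕ → ℝ} (h : Bd L σ) (p : (ℕ → ℝ) × E) : DG.JetAt ⊤ (fun θ => T L σ θ) p := by
  refine ⟨Eventually.of_forall fun q => (T_contDiff L h q.1).contDiffAt, fun j _ => ?_⟩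
  obtain ⟨v, hv, hv'⟩ := exists_bound L h
  have e : (fun q : (ℕ → ℝ) × E => iteratedFDeriv ℝ j (T L σ q.1) q.2) =
      fun q => iteratedFDeriv ℝ j (id : E → E) q.2 +
        ∑' i, iteratedFDeriv ℝ j (wob L (σ i) (rad i)) (q.2 - cen L i (q.1 i)) := by
    funext q
    have h1 : T L σ q.1 = (id : E → E) +
      (fun w => ∑' i, wob L (σ i) (rad i) (w - cen L i (q.1 i))) := rfl
    have hj : ((j : ℕ) : WithTop ℕ∞) ≤ (∞ : WithTop ℕ∞) := by exact_mod_cast le_top
    rw [h1, iteratedFDeriv_add_apply (contDiff_id.contDiffAt.of_le hj)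
      ((sum_contDiff L h q.1).contDiffAt.of_le hj)]
    congr 1
    have hF : ∀ i, ContDiff ℝ ∞ (fun w : E => wob L (σ i) (rad i) (w - cen L i (q.1 i))) :=
      fun i => (wob_contDiff L _ _).comp (contDiff_id.sub contDiff_const)
    have h2 := iteratedFDeriv_tsum_apply (N := ⊤) (v := v) hF
      (fun k _ => hv k) (fun k i w _ => by rw [iter_shift]; exact hv' k i _) (k := j) le_top q.2
    rw [h2]
    refine tsum_congr fun i => ?_
    rw [iter_shift]
  rw [e]
  refine Continuous.continuousAt ?_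
  have hj : ((j : ℕ) : WithTop ℕ∞) ≤ (∞ : WithTop ℕ∞) := by exact_mod_cast le_top
  refine Continuous.add ?_ ?_
  · exact ((contDiff_id.continuous_iteratedFDeriv hj).comp continuous_snd)
  · refine continuous_tsum (u := v j) (fun i => ?_) (hv j) (fun i q => hv' j i _)
    exact ((wob_contDiff L _ _).continuous_iteratedFDeriv hj).comp
      (continuous_snd.sub ((continuous_cen L i).comp ((continuous_apply i).comp continuous_fst)))

end Pool.Agent.R604.TC
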